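import Pool.Agent.H9.MF.HeckeQ

namespace Pool.Agent.H9.MF

open Complex Filter Topology ModularForm MatrixGroups Manifold Derivative
open UpperHalfPlane hiding I

/-- `q`-expansion principle in weight zero -/
lemma principle : ∀ (N : ℕ) (G : PowerSeries ℤ) (f : ℍ → ℂ), Lvl 0 f →
    HasQ f N (PowerSeries.map (Int.castRingHom ℂ) G) →
    ∃ P : Polynomial ℤ, ∀ τ, f τ = Polynomial.aeval (jj τ) P := by
  intro N
  induction N with
  | zero =>
    intro G f hl hf
    refine ⟨Polynomial.C (PowerSeries.coeff 0 G), fun τ => ?_⟩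
    rw [eq_const_of_zero hl hf τ]
    simp
  | succ N ih =>
    intro G f hl hf
    set c := PowerSeries.coeff 0 G with hc
    have hj := hasQ_jj.pow (N+1)
    rw [one_mul, ← map_pow] at hj
    have hj2 := hj.const_mul (c:ℂ)
    have hs := hf.sub hj2
    have e : PowerSeries.map (Int.castRingHom ℂ) G
        - PowerSeries.C (c:ℂ) * PowerSeries.map (Int.castRingHom ℂ) (sJ ^ (N+1))
        = PowerSeries.map (Int.castRingHom ℂ) (G - PowerSeries.C c * sJ ^ (N+1)) := by
      rw [map_sub, map_mul, PowerSeries.map_C]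
      simp
    rw [e] at hs
    have h0 : PowerSeries.coeff 0 (PowerSeries.map (Int.castRingHom ℂ) (G - PowerSeries.C c * sJ ^ (N+1))) = 0 := by
      rw [PowerSeries.coeff_map, map_sub, PowerSeries.coeff_C_mul, PowerSeries.coeff_zero_eq_constantCoeff_apply (sJ ^ (N+1)),
        map_pow, sJ_cc, ← hc]
      simp
    have hu := hs.unshift h0
    have e2 : (PowerSeries.mk fun m => PowerSeries.coeff (m+1)
        (PowerSeries.map (Int.castRingHom ℂ) (G - PowerSeries.C c * sJ ^ (N+1))))
        = PowerSeries.map (Int.castRingHom ℂ) (PowerSeries.mk fun m => PowerSeries.coeff (m+1) (G - PowerSeries.C c * sJ ^ (N+1))) := by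
      ext m
      simp only [PowerSeries.coeff_mk, PowerSeries.coeff_map]
    rw [e2] at hu
    have hlj : Lvl 0 (fun τ => jj τ ^ (N+1)) := (lvl_jj.pow (N+1)).cast (by ring)
    have hl2 := hl.sub (hlj.const_mul (c:ℂ))
    obtain ⟨P, hP⟩ := ih _ _ hl2 hu
    refine ⟨P + Polynomial.C c * Polynomial.X ^ (N+1), fun τ => ?_⟩
    have := hP τ
    rw [map_add, ← this]
    simp

lemma principle' {f : ℍ → ℂ} (hl : Lvl 0 f) (hf : IntQ f) :
    ∃ P : Polynomial ℤ, ∀ τ, f τ = Polynomial.aeval (jj τ) P := by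
  obtain ⟨N, G, hG⟩ := hf
  exact principle N G f hl hG

/-- termwise differentiation -/
lemma Conv.hasSum_deriv {F : PowerSeries ℂ} (hF : Conv F) {x : ℂ} (hx : ‖x‖ < 1) :
    HasSum (fun m : ℕ => PowerSeries.coeff m F * (m * x ^ (m - 1))) (deriv (ev F) x) := by
  obtain ⟨r, hr1, hr2⟩ := exists_between hx
  have hr0 : 0 < r := lt_of_le_of_lt (norm_nonneg x) hr1
  have hrn : ‖(r:ℂ)‖ < 1 := by
    rw [Complex.norm_real, Real.norm_of_nonneg hr0.le]
    exact hr2
  have h := Complex.hasSum_deriv_of_summable_norm (U := Metric.ball (0:ℂ) r) (z := x)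
    (u := fun m => ‖PowerSeries.coeff m F * (r:ℂ) ^ m‖) (F := fun m x => PowerSeries.coeff m F * x ^ m)
    (hF.norm hrn) (fun i => by fun_prop) Metric.isOpen_ball
    (fun i w hw => by
      rw [norm_mul, norm_mul, norm_pow, norm_pow]
      have hw' : ‖w‖ < r := by simpa using hw
      have : ‖(r:ℂ)‖ = r := by rw [Complex.norm_real, Real.norm_of_nonneg hr0.le]
      rw [this]
      gcongr) (by simpa using hr1)
  have e : (fun m : ℕ => PowerSeries.coeff m F * (m * x ^ (m - 1)))
      = fun i => deriv (fun x => PowerSeries.coeff i F * x ^ i) x := by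
    ext m
    simp
  rw [e]
  exact h

lemma ev_theta {F : PowerSeries ℂ} (hF : Conv F) {x : ℂ} (hx : ‖x‖ < 1) :
    HasSum (fun m : ℕ => (m:ℂ) * PowerSeries.coeff m F * x ^ m) (x * deriv (ev F) x) := by
  have := (hF.hasSum_deriv hx).mul_left x
  have e : (fun m : ℕ => (m:ℂ) * PowerSeries.coeff m F * x ^ m)
      = fun m : ℕ => x * (PowerSeries.coeff m F * (m * x ^ (m - 1))) := by
    ext m
    cases m with
    | zero => simp
    | succ m =>
      simp only [Nat.add_sub_cancel]
      ring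
  rw [e]
  exact this

/-- q-expansion of the derivative -/
lemma HasQ.deriv {f : ℍ → ℂ} {N : ℕ} {F : PowerSeries ℂ} (hf : HasQ f N F) :
    HasQ (D f) N (PowerSeries.mk fun m => ((m:ℂ) - N) * PowerSeries.coeff m F) := by
  apply HasQ.of_hasSum
  intro τ
  have hq := norm_qq_lt τ
  have hqn := qq_ne τ
  have h1 : HasDerivAt (fun z : ℂ => Function.Periodic.qParam 1 z) (2 * Real.pi * I * qq τ) (τ:ℂ) := by
    unfold Function.Periodic.qParam qq
    have : HasDerivAt (fun z : ℂ => cexp (2 * Real.pi * I * z / (1:ℝ))) _ (τ:ℂ) :=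
      (((hasDerivAt_id (τ:ℂ)).const_mul (2 * Real.pi * I)).div_const ((1:ℝ):ℂ)).cexp
    refine this.congr_deriv ?_
    simp only [Function.Periodic.qParam]
    simp
    ring
  have h2 : HasDerivAt (ev F) (_root_.deriv (ev F) (qq τ)) (qq τ) := (hf.conv.differentiableAt hq).hasDerivAt
  have h3 : HasDerivAt (fun z : ℂ => ev F (Function.Periodic.qParam 1 z))
      (_root_.deriv (ev F) (qq τ) * (2 * Real.pi * I * qq τ)) (τ:ℂ) :=
    HasDerivAt.comp (h := fun z : ℂ => Function.Periodic.qParam 1 z) (τ:ℂ) h2 h1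
  have h4 : HasDerivAt (fun z : ℂ => (Function.Periodic.qParam 1 z ^ N)⁻¹)
      (-(N * qq τ ^ (N - 1) * (2 * Real.pi * I * qq τ)) / (qq τ ^ N) ^ 2) (τ:ℂ) :=
    (h1.pow N).inv (pow_ne_zero N hqn)
  have h5 : HasDerivAt (fun z : ℂ => (Function.Periodic.qParam 1 z ^ N)⁻¹ * ev F (Function.Periodic.qParam 1 z))
      (-(N * qq τ ^ (N - 1) * (2 * Real.pi * I * qq τ)) / (qq τ ^ N) ^ 2 * ev F (qq τ)
        + (qq τ ^ N)⁻¹ * (_root_.deriv (ev F) (qq τ) * (2 * Real.pi * I * qq τ))) (τ:ℂ) := h4.mul h3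
  have h6 : (f ∘ ofComplex) =ᶠ[𝓝 (τ:ℂ)]
      fun z : ℂ => (Function.Periodic.qParam 1 z ^ N)⁻¹ * ev F (Function.Periodic.qParam 1 z) := by
    filter_upwards [isOpen_upperHalfPlaneSet.mem_nhds τ.im_pos] with z hz
    have h2 := hf.eq (ofComplex z)
    rw [HasQ.qq_comp_ofComplex hz] at h2
    have hne : Function.Periodic.qParam 1 z ^ N ≠ 0 := pow_ne_zero _ (Function.Periodic.qParam_ne_zero _)
    rw [← h2, Function.comp_apply]
    field_simp
  have h7 := h5.congr_of_eventuallyEq h6
  have h8 : qq τ ^ N * D f τ = qq τ * _root_.deriv (ev F) (qq τ) - N * ev F (qq τ) := by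
    unfold normalizedDerivOfComplex
    rw [h7.deriv]
    have hpi : (2 * Real.pi * I : ℂ) ≠ 0 := by simp [Real.pi_ne_zero]
    generalize (2 * Real.pi * I : ℂ) = P at hpi ⊢
    cases N with
    | zero =>
      simp
      field_simp
    | succ N =>
      simp only [Nat.add_sub_cancel]
      field_simp
      push_cast
      ring
  rw [h8]
  have h9 := (ev_theta hf.conv hq).sub ((hf.conv.hasSum hq).mul_left (N:ℂ))
  refine h9.congr_fun ?_
  intro m
  rw [PowerSeries.coeff_mk]
  ring

lemma lvl_D {f : ℍ → ℂ} (hl : Lvl 0 f) (hm : MDiff f) : Lvl 2 (D f) := by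
  intro γ
  have h := normalizedDerivOfComplex_SL_slash (k := 0) hm (γ := γ)
  rw [hl γ] at h
  have e : (0:ℤ) + 2 = 2 := by norm_num
  rw [e] at h
  ext z
  have h2 := congrFun h z
  simp only [Pi.sub_apply, Int.cast_zero, zero_mul, sub_zero] at h2
  exact h2.symm

/-- the constant term of a weight two weakly holomorphic form vanishes -/
lemma const_term_zero : ∀ (N : ℕ) (F : PowerSeries ℂ) (f : ℍ → ℂ), Lvl 2 f → HasQ f N F →
    PowerSeries.coeff N F = 0 := by
  intro N
  induction N with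
  | zero =>
    intro F f hl hf
    have h0 := eq_zero_of_two hl hf
    have h1 : HasQ f 0 (PowerSeries.C 0) := (HasQ.const 0).congr (fun τ => by rw [h0]; rfl)
    rw [hf.unique h1]
    simp
  | succ N ih =>
    intro F f hl hf
    have hj := hasQ_jj.pow (N+1)
    rw [one_mul, ← map_pow] at hj
    have hlj : Lvl 0 (fun τ => jj τ ^ (N+1)) := (lvl_jj.pow (N+1)).cast (by ring)
    have hd := hj.deriv
    have hld := lvl_D hlj hj.mdiff
    set J := PowerSeries.map (Int.castRingHom ℂ) (sJ ^ (N+1)) with hJ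
    have hJ0 : PowerSeries.coeff 0 J = 1 := by
      rw [hJ, PowerSeries.coeff_map, PowerSeries.coeff_zero_eq_constantCoeff_apply, map_pow, sJ_cc]
      simp
    set c := PowerSeries.coeff 0 F with hc
    have hs := hf.add (hd.const_mul (c / (N+1)))
    have hls := hl.add (hld.const_mul (c / (N+1)))
    have hne : (N:ℂ) + 1 ≠ 0 := by exact_mod_cast Nat.succ_ne_zero N
    have h0 : PowerSeries.coeff 0 (F + PowerSeries.C (c / (N+1)) *
        PowerSeries.mk fun m => ((m:ℂ) - ((N+1 : ℕ):ℂ)) * PowerSeries.coeff m J) = 0 := by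
      rw [map_add, PowerSeries.coeff_C_mul, PowerSeries.coeff_mk, hJ0, ← hc]
      push_cast
      field_simp
      ring
    have hu := hs.unshift h0
    have := ih _ _ hls hu
    rw [PowerSeries.coeff_mk, map_add, PowerSeries.coeff_C_mul, PowerSeries.coeff_mk] at this
    simpa using this

end Pool.Agent.H9.MF
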