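import Pool.Agent.H9.MF.HasQ

namespace Pool.Agent.H9.MF

open Complex Filter Topology ModularForm MatrixGroups Manifold
open UpperHalfPlane hiding I
open scoped ArithmeticFunction.sigma

/-! ### level one invariance -/

lemma Lvl.mul {a b : ℤ} {f g : ℍ → ℂ} (hf : Lvl a f) (hg : Lvl b g) : Lvl (a+b) (fun τ => f τ * g τ) := by
  intro γ
  have := ModularForm.mul_slash_SL2 a b γ f g
  rw [hf γ, hg γ] at this
  exact this

lemma Lvl.div {a b : ℤ} {f g : ℍ → ℂ} (hf : Lvl a f) (hg : Lvl b g) : Lvl (a-b) (fun τ => f τ / g τ) := by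
  intro γ
  have := ModularForm.div_slash_SL2 a b γ f g
  rw [hf γ, hg γ] at this
  exact this

lemma Lvl.add {a : ℤ} {f g : ℍ → ℂ} (hf : Lvl a f) (hg : Lvl a g) : Lvl a (fun τ => f τ + g τ) := by
  intro γ
  have := SlashAction.add_slash a γ f g
  rw [hf γ, hg γ] at this
  exact this

lemma Lvl.const (c : ℂ) : Lvl 0 (fun _ => c) := by
  intro γ
  exact ModularForm.is_invariant_const γ c

lemma Lvl.const_mul {a : ℤ} {f : ℍ → ℂ} (hf : Lvl a f) (c : ℂ) : Lvl a (fun τ => c * f τ) := by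
  have := (Lvl.const c).mul hf
  rwa [zero_add] at this

lemma Lvl.neg {a : ℤ} {f : ℍ → ℂ} (hf : Lvl a f) : Lvl a (fun τ => - f τ) := by
  have := hf.const_mul (-1)
  simpa using this

lemma Lvl.sub {a : ℤ} {f g : ℍ → ℂ} (hf : Lvl a f) (hg : Lvl a g) : Lvl a (fun τ => f τ - g τ) := by
  have := hf.add hg.neg
  simpa [sub_eq_add_neg] using this

lemma Lvl.pow {a : ℤ} {f : ℍ → ℂ} (hf : Lvl a f) (n : ℕ) : Lvl (n*a) (fun τ => f τ ^ n) := by
  induction n with
  | zero => simpa using Lvl.const 1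
  | succ n ih =>
    have := ih.mul hf
    have e : ((n+1:ℕ):ℤ)*a = n*a + a := by push_cast; ring
    rw [e]
    simpa [pow_succ] using this

lemma Lvl.cast {a b : ℤ} {f : ℍ → ℂ} (hf : Lvl a f) (h : a = b) : Lvl b f := h ▸ hf

lemma lvl_modularForm {k : ℤ} (f : ModularForm 𝒮ℒ k) : Lvl k f := by
  intro γ
  have := SlashInvariantForm.slash_action_eqn f (γ : GL (Fin 2) ℝ) ⟨γ, rfl⟩
  rw [ModularForm.SL_slash]
  exact this

lemma lvl_disc : Lvl 12 discriminant := by
  intro γ
  have := SlashInvariantForm.slash_action_eqn CuspForm.discriminant (γ : GL (Fin 2) ℝ) ⟨γ, rfl⟩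
  rw [ModularForm.SL_slash]
  exact this

/-! ### integral power series -/

/-- power series with integer coefficients, inside the complex ones -/
noncomputable def intPS : Subring (PowerSeries ℂ) := (PowerSeries.map (Int.castRingHom ℂ)).range

lemma mem_intPS {F : PowerSeries ℂ} : F ∈ intPS ↔ ∃ G : PowerSeries ℤ, PowerSeries.map (Int.castRingHom ℂ) G = F := by
  unfold intPS
  rw [RingHom.mem_range]

lemma X_mem_intPS : PowerSeries.X ∈ intPS := mem_intPS.mpr ⟨PowerSeries.X, by simp⟩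

lemma C_mem_intPS (a : ℤ) : PowerSeries.C (a:ℂ) ∈ intPS := mem_intPS.mpr ⟨PowerSeries.C a, by simp⟩

lemma mk_mem_intPS (c : ℕ → ℤ) : (PowerSeries.mk fun m => (c m : ℂ)) ∈ intPS :=
  mem_intPS.mpr ⟨PowerSeries.mk c, by ext; simp⟩

/-- the q-expansion of the Eisenstein series `E k` -/
lemma E_int {k : ℕ} (hk : 3 ≤ k) (hk2 : Even k) (c : ℤ) (hc : -(2 * (k:ℂ) / (bernoulli k : ℂ)) = c) :
    qExpansion 1 (E hk) = PowerSeries.map (Int.castRingHom ℂ)
      (1 + PowerSeries.C c * PowerSeries.mk fun m => ((σ (k-1) m : ℕ) : ℤ)) := by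
  ext m
  rw [EisensteinSeries.E_qExpansion_coeff hk hk2 m, hc, PowerSeries.coeff_map, map_add,
    PowerSeries.coeff_C_mul, PowerSeries.coeff_mk, PowerSeries.coeff_one]
  by_cases hm : m = 0
  · subst hm
    rw [if_pos rfl, if_pos rfl, ArithmeticFunction.map_zero]
    simp
  · rw [if_neg hm, if_neg hm]
    simp

lemma c4 : -(2 * ((4:ℕ):ℂ) / (bernoulli 4 : ℂ)) = (240:ℤ) := by
  norm_num [show bernoulli 4 = -1 / 30 by decide +kernel]

lemma c6 : -(2 * ((6:ℕ):ℂ) / (bernoulli 6 : ℂ)) = (-504:ℤ) := by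
  norm_num [show bernoulli 6 = 1 / 42 by decide +kernel]

lemma c8 : -(2 * ((8:ℕ):ℂ) / (bernoulli 8 : ℂ)) = (480:ℤ) := by
  norm_num [show bernoulli 8 = -1 / 30 by decide +kernel]

lemma c10 : -(2 * ((10:ℕ):ℂ) / (bernoulli 10 : ℂ)) = (-264:ℤ) := by
  norm_num [show bernoulli 10 = 5 / 66 by decide +kernel]

lemma c14 : -(2 * ((14:ℕ):ℂ) / (bernoulli 14 : ℂ)) = (-24:ℤ) := by
  norm_num [show bernoulli 14 = 7 / 6 by decide +kernel]

/-! ### the discriminant -/

lemma div12 (n : ℕ) : (12:ℤ) ∣ 5 * ((σ 3 n : ℕ):ℤ) + 7 * ((σ 5 n : ℕ):ℤ) := by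
  rw [ArithmeticFunction.sigma_apply, ArithmeticFunction.sigma_apply]
  push_cast
  rw [Finset.mul_sum, Finset.mul_sum, ← Finset.sum_add_distrib]
  apply Finset.dvd_sum
  intro d _
  have h : ∀ x : ZMod 12, 5 * x^3 + 7 * x^5 = 0 := by decide
  have := h (d : ZMod 12)
  have h2 : ((5 * (d:ℤ)^3 + 7 * (d:ℤ)^5 : ℤ) : ZMod 12) = 0 := by
    push_cast
    exact this
  exact (ZMod.intCast_zmod_eq_zero_iff_dvd _ 12).mp h2 |> fun h => by simpa using h

noncomputable def sa : PowerSeries ℤ := PowerSeries.mk fun m => ((σ 3 m : ℕ) : ℤ)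
noncomputable def sb : PowerSeries ℤ := PowerSeries.mk fun m => ((σ 5 m : ℕ) : ℤ)
noncomputable def sc : PowerSeries ℤ := PowerSeries.mk fun m => (5 * ((σ 3 m : ℕ):ℤ) + 7 * ((σ 5 m : ℕ):ℤ)) / 12

lemma sc_eq : PowerSeries.C (12:ℤ) * sc = PowerSeries.C (5:ℤ) * sa + PowerSeries.C (7:ℤ) * sb := by
  ext m
  simp only [sc, sa, sb, PowerSeries.coeff_C_mul, PowerSeries.coeff_mk, map_add]
  exact Int.mul_ediv_cancel' (div12 m)

/-- integral model of Delta -/
noncomputable def sD : PowerSeries ℤ :=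
  sc + PowerSeries.C 100 * sa^2 + PowerSeries.C 8000 * sa^3 - PowerSeries.C 147 * sb^2

noncomputable def s4 : PowerSeries ℤ := 1 + PowerSeries.C 240 * sa
noncomputable def s6 : PowerSeries ℤ := 1 + PowerSeries.C (-504) * sb

lemma s_rel : PowerSeries.C (1728:ℤ) * sD = s4^3 - s6^2 := by
  have h := sc_eq
  unfold sD s4 s6
  have e1 : (PowerSeries.C (1728:ℤ) : PowerSeries ℤ) = 1728 := by simp
  have e2 : (PowerSeries.C (12:ℤ) : PowerSeries ℤ) = 12 := by simp
  have e3 : (PowerSeries.C (5:ℤ) : PowerSeries ℤ) = 5 := by simp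
  have e4 : (PowerSeries.C (7:ℤ) : PowerSeries ℤ) = 7 := by simp
  have e5 : (PowerSeries.C (100:ℤ) : PowerSeries ℤ) = 100 := by simp
  have e6 : (PowerSeries.C (8000:ℤ) : PowerSeries ℤ) = 8000 := by simp
  have e7 : (PowerSeries.C (147:ℤ) : PowerSeries ℤ) = 147 := by simp
  have e8 : (PowerSeries.C (240:ℤ) : PowerSeries ℤ) = 240 := by simp
  have e9 : (PowerSeries.C (-504:ℤ) : PowerSeries ℤ) = -504 := by simp
  rw [e1, e5, e6, e7, e8, e9]
  rw [e2, e3, e4] at h
  linear_combination 144 * h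

lemma s4_eq : qExpansion 1 E₄ = PowerSeries.map (Int.castRingHom ℂ) s4 :=
  E_int (by norm_num) ⟨2, rfl⟩ 240 c4

lemma s6_eq : qExpansion 1 E₆ = PowerSeries.map (Int.castRingHom ℂ) s6 :=
  E_int (by norm_num) ⟨3, rfl⟩ (-504) c6

lemma hasQ_E4 : HasQ E₄ 0 (PowerSeries.map (Int.castRingHom ℂ) s4) := by
  rw [← s4_eq]
  exact hasQ_modularForm _

lemma hasQ_E6 : HasQ E₆ 0 (PowerSeries.map (Int.castRingHom ℂ) s6) := by
  rw [← s6_eq]
  exact hasQ_modularForm _

lemma hasQ_disc : HasQ discriminant 0 (PowerSeries.map (Int.castRingHom ℂ) sD) := by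
  have h1 : HasQ (fun τ => (1728:ℂ) * discriminant τ) 0
      (PowerSeries.C 1728 * qExpansion 1 CuspForm.discriminant) :=
    (hasQ_cuspForm CuspForm.discriminant).const_mul 1728
  have h2 : HasQ (fun τ => E₄ τ ^ 3 - E₆ τ ^ 2) 0
      ((PowerSeries.map (Int.castRingHom ℂ) s4)^3 - (PowerSeries.map (Int.castRingHom ℂ) s6)^2) := by
    have a := hasQ_E4.pow 3
    have b := hasQ_E6.pow 2
    simp only [zero_mul] at a b
    exact a.sub b
  have h3 : ∀ τ, (1728:ℂ) * discriminant τ = E₄ τ ^ 3 - E₆ τ ^ 2 := by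
    intro τ
    rw [ModularForm.discriminant_eq_E₄_cube_sub_E₆_sq]
    ring
  have h4 := (h2.congr h3).unique h1
  rw [← map_pow, ← map_pow, ← map_sub, ← s_rel, map_mul] at h4
  have h5 : (PowerSeries.map (Int.castRingHom ℂ)) (PowerSeries.C (1728:ℤ)) = PowerSeries.C (1728:ℂ) := by
    rw [PowerSeries.map_C]
    congr 1
  rw [h5] at h4
  have h6 : PowerSeries.map (Int.castRingHom ℂ) sD = qExpansion 1 CuspForm.discriminant := by
    have hne : (PowerSeries.C (1728:ℂ)) ≠ 0 := by
      intro h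
      have := congrArg (PowerSeries.coeff 0) h
      simp at this
    exact mul_left_cancel₀ hne h4
  rw [h6]
  exact hasQ_cuspForm CuspForm.discriminant

lemma sD_coeff0 : PowerSeries.coeff 0 sD = 0 := by
  simp [sD, sc, sa, sb]

lemma sD_coeff1 : PowerSeries.coeff 1 sD = 1 := by
  have h : PowerSeries.coeff 1 (PowerSeries.map (Int.castRingHom ℂ) sD) = 1 := by
    have h1 := hasQ_disc.unique (hasQ_cuspForm CuspForm.discriminant)
    rw [h1]
    exact discriminant_qExpansion_coeff_one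
  rw [PowerSeries.coeff_map] at h
  have h2 : ((PowerSeries.coeff 1 sD : ℤ) : ℂ) = ((1:ℤ):ℂ) := by simpa using h
  exact_mod_cast h2

/-- `Delta/q` -/
noncomputable def sD' : PowerSeries ℤ := PowerSeries.mk fun m => PowerSeries.coeff (m+1) sD

lemma sD_eq : sD = PowerSeries.X * sD' := by
  ext m
  cases m with
  | zero => simp only [PowerSeries.coeff_zero_X_mul]; exact sD_coeff0
  | succ m => rw [PowerSeries.coeff_succ_X_mul, sD', PowerSeries.coeff_mk]

lemma sD'_unit : IsUnit sD' := by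
  rw [PowerSeries.isUnit_iff_constantCoeff]
  have : PowerSeries.constantCoeff sD' = 1 := by
    rw [← PowerSeries.coeff_zero_eq_constantCoeff_apply, sD', PowerSeries.coeff_mk]
    exact sD_coeff1
  rw [this]
  exact isUnit_one

/-- `q/Delta` -/
noncomputable def sI : PowerSeries ℤ := ↑(sD'_unit.unit⁻¹)

lemma sI_mul : sI * sD' = 1 := by
  unfold sI
  exact sD'_unit.val_inv_mul

lemma sI_coeff0 : PowerSeries.coeff 0 sI = 1 := by
  have h := congrArg (PowerSeries.coeff 0) sI_mul
  simp only [PowerSeries.coeff_zero_eq_constantCoeff, map_mul, map_one] at h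
  have h2 : PowerSeries.constantCoeff sD' = 1 := by
    rw [← PowerSeries.coeff_zero_eq_constantCoeff_apply, sD', PowerSeries.coeff_mk]
    exact sD_coeff1
  rw [h2, mul_one] at h
  simpa using h

lemma hasQ_qq : HasQ qq 0 PowerSeries.X := by
  refine ⟨by simpa using conv_X_pow 1, fun τ => ?_⟩
  have := ev_X_pow 1 (qq τ)
  simp only [pow_one] at this
  rw [this]
  simp

lemma hasQ_qdivdisc_aux : ∃ F, HasQ (fun τ => qq τ / discriminant τ) 0 F := by
  refine ⟨_, hasQ_of_bounded ?_ ?_ ?_⟩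
  · intro w
    by_cases hw : 0 < w.im
    · have hw' : 0 < (w + 1).im := by simp [hw]
      simp only [Function.comp_apply]
      have h1 : qq (ofComplex (w+1)) = qq (ofComplex w) := by
        rw [HasQ.qq_comp_ofComplex hw', HasQ.qq_comp_ofComplex hw]
        unfold Function.Periodic.qParam
        simp only [ofReal_one, div_one]
        rw [mul_add, Complex.exp_add]
        simp
      have h2 : discriminant (ofComplex (w+1)) = discriminant (ofComplex w) := by
        have := SlashInvariantFormClass.periodic_comp_ofComplex (h := 1) CuspForm.discriminant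
          one_mem_strictPeriods_SL w
        simpa using this
      rw [h1, h2]
    · have hw1 : w.im ≤ 0 := not_lt.mp hw
      have hw' : (w + 1).im ≤ 0 := by simpa using hw1
      simp only [Function.comp_apply]
      rw [ofComplex_apply_of_im_nonpos hw', ofComplex_apply_of_im_nonpos hw1]
  · exact hasQ_qq.mdiff.div CuspForm.discriminant.holo' discriminant_ne_zero
  · rw [IsBoundedAtImInfty, BoundedAtFilter]
    refine (Asymptotics.div_isBoundedUnder_of_isBigO ?_).isBigO_one ℝ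
    have h := ModularForm.exp_isBigO_discriminant
    refine (Asymptotics.IsBigO.of_bound 1 ?_).trans h
    filter_upwards with τ
    rw [one_mul, Real.norm_of_nonneg (Real.exp_pos _).le]
    unfold qq
    rw [Function.Periodic.norm_qParam]
    simp

lemma hasQ_invdisc : HasQ (fun τ => (discriminant τ)⁻¹) 1 (PowerSeries.map (Int.castRingHom ℂ) sI) := by
  obtain ⟨F, hF⟩ := hasQ_qdivdisc_aux
  have h1 := hF.mul hasQ_disc
  have h2 : HasQ qq 0 (F * PowerSeries.map (Int.castRingHom ℂ) sD) := by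
    refine HasQ.congr h1 ?_
    intro τ
    rw [div_mul_cancel₀ _ (discriminant_ne_zero τ)]
  have h3 := h2.unique hasQ_qq
  have h4 : F * PowerSeries.map (Int.castRingHom ℂ) sD' = 1 := by
    rw [sD_eq, map_mul, PowerSeries.map_X] at h3
    have h5 : PowerSeries.X * (F * PowerSeries.map (Int.castRingHom ℂ) sD') = PowerSeries.X * 1 := by
      rw [mul_one]
      nth_rewrite 2 [← h3]
      ring
    exact mul_left_cancel₀ PowerSeries.X_ne_zero h5
  have h6 : PowerSeries.map (Int.castRingHom ℂ) sI * PowerSeries.map (Int.castRingHom ℂ) sD' = 1 := by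
    rw [← map_mul, sI_mul, map_one]
  have h7 : F = PowerSeries.map (Int.castRingHom ℂ) sI := by
    calc F = F * (PowerSeries.map (Int.castRingHom ℂ) sI * PowerSeries.map (Int.castRingHom ℂ) sD') := by rw [h6, mul_one]
      _ = (F * PowerSeries.map (Int.castRingHom ℂ) sD') * PowerSeries.map (Int.castRingHom ℂ) sI := by ring
      _ = _ := by rw [h4, one_mul]
  rw [← h7]
  refine ⟨hF.conv, fun τ => ?_⟩
  rw [← hF.eq]
  simp [div_eq_mul_inv]

/-- Klein's invariant -/
noncomputable def jj (τ : ℍ) : ℂ := E₄ τ ^ 3 / discriminant τ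

noncomputable def sJ : PowerSeries ℤ := s4^3 * sI

lemma hasQ_jj : HasQ jj 1 (PowerSeries.map (Int.castRingHom ℂ) sJ) := by
  have a := hasQ_E4.pow 3
  simp only [zero_mul] at a
  have b := a.mul hasQ_invdisc
  unfold sJ
  rw [map_mul, map_pow]
  rw [zero_add] at b
  refine b.congr ?_
  intro τ
  unfold jj
  rw [div_eq_mul_inv]

lemma s4_cc : PowerSeries.constantCoeff s4 = 1 := by
  rw [s4, map_add, map_mul, map_one, ← PowerSeries.coeff_zero_eq_constantCoeff_apply sa, sa,
    PowerSeries.coeff_mk, ArithmeticFunction.map_zero]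
  simp

lemma s6_cc : PowerSeries.constantCoeff s6 = 1 := by
  rw [s6, map_add, map_mul, map_one, ← PowerSeries.coeff_zero_eq_constantCoeff_apply sb, sb,
    PowerSeries.coeff_mk, ArithmeticFunction.map_zero]
  simp

lemma sI_cc : PowerSeries.constantCoeff sI = 1 := by
  rw [← PowerSeries.coeff_zero_eq_constantCoeff_apply]
  exact sI_coeff0

lemma sJ_cc : PowerSeries.constantCoeff sJ = 1 := by
  rw [sJ, map_mul, map_pow, s4_cc, sI_cc]
  norm_num

lemma lvl_jj : Lvl 0 jj := by
  have h1 := ((lvl_modularForm E₄).pow 3).div lvl_disc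
  exact h1.cast (by norm_num)

end Pool.Agent.H9.MF
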