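import Mathlib

namespace Pool.Agent.H9.MF

open Finset Nat

lemma sum_anti_lt (k : ℕ) (F : ℕ → ℕ → ℂ) :
    ∑ a ∈ antidiagonal k with a.1 < k, F a.1 a.2 = ∑ i ∈ range k, F i (k - i) := by
  apply Finset.sum_nbij' (i := fun a => a.1) (j := fun i => (i, k - i))
  · intro a ha
    simp only [mem_filter, HasAntidiagonal.mem_antidiagonal] at ha
    exact mem_range.mpr ha.2
  · intro i hi
    have := mem_range.mp hi
    simp only [mem_filter, HasAntidiagonal.mem_antidiagonal]
    exact ⟨by omega, this⟩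
  · intro a ha
    simp only [mem_filter, HasAntidiagonal.mem_antidiagonal] at ha
    ext
    · rfl
    · simp only
      omega
  · intro i _
    rfl
  · intro a ha
    simp only [mem_filter, HasAntidiagonal.mem_antidiagonal] at ha
    have : a.2 = k - a.1 := by omega
    rw [this]

/-- consequence of the Newton identities -/
lemma newton_cong (e : ℕ → ℂ) (Pz : ℕ → ℤ) (q : ℤ) (hmod : ∀ s : ℕ, 1 ≤ s → q ∣ Pz s - (Pz 1) ^ s)
    (he0 : e 0 = 1) (hN : ∀ k : ℕ, 1 ≤ k → (k:ℂ) * e k = (-1) ^ (k+1) * ∑ i ∈ range k, (-1) ^ i * e i * (Pz (k - i) : ℂ)) :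
    ∀ j, 2 ≤ j → ∃ z : ℤ, ((j ! : ℕ) : ℂ) * e j = (q:ℂ) * z := by
  have he1 : e 1 = Pz 1 := by
    have := hN 1 le_rfl
    simpa [he0] using this
  intro j
  induction j using Nat.strong_induction_on with
  | _ j ih =>
  intro hj
  obtain ⟨i, rfl⟩ : ∃ i, j = i + 2 := ⟨j - 2, by omega⟩
  have h1 := hN (i+2) (by omega)
  rw [Finset.sum_range_succ', Finset.sum_range_succ'] at h1
  -- the terms of index at least two
  have h2 : ∀ a ∈ range i, ∃ z : ℤ, (((i+1) ! : ℕ) : ℂ) * ((-1) ^ (a+1+1) * e (a+1+1) * (Pz (i + 2 - (a+1+1)) : ℂ)) = (q:ℂ) * z := by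
    intro a ha
    have ha' := mem_range.mp ha
    obtain ⟨z, hz⟩ := ih (a+2) (by omega) (by omega)
    have hdvd : (a+2) ! ∣ (i+1) ! := Nat.factorial_dvd_factorial (by omega)
    obtain ⟨d, hd⟩ := hdvd
    refine ⟨d * (-1) ^ (a+1+1) * z * Pz (i + 2 - (a+1+1)), ?_⟩
    rw [hd]
    generalize Pz (i + 2 - (a+1+1)) = Y
    push_cast
    linear_combination (d:ℂ) * (-1) ^ (a+1+1) * (Y : ℂ) * hz
  choose! z hz using h2
  obtain ⟨y1, hy1⟩ := hmod (i+2) (by omega)
  obtain ⟨y2, hy2⟩ := hmod (i+1) (by omega)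
  have hy1' : (Pz (i+2) : ℂ) = (Pz 1 : ℂ) ^ (i+2) + q * y1 := by
    have : Pz (i+2) = (Pz 1) ^ (i+2) + q * y1 := by linarith
    exact_mod_cast this
  have hy2' : (Pz (i+1) : ℂ) = (Pz 1 : ℂ) ^ (i+1) + q * y2 := by
    have : Pz (i+1) = (Pz 1) ^ (i+1) + q * y2 := by linarith
    exact_mod_cast this
  refine ⟨(-1) ^ (i+2+1) * (∑ a ∈ range i, z a + (i+1)! * (y1 - Pz 1 * y2)), ?_⟩
  have h3 : (((i+2) ! : ℕ) : ℂ) * e (i+2) = (((i+1) ! : ℕ) : ℂ) * (((i+2 : ℕ) : ℂ) * e (i+2)) := by
    rw [Nat.factorial_succ (i+1)]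
    push_cast
    ring
  rw [h3, h1]
  have h4 : (((i+1) ! : ℕ) : ℂ) * ∑ a ∈ range i, ((-1) ^ (a+1+1) * e (a+1+1) * (Pz (i + 2 - (a+1+1)) : ℂ))
      = (q:ℂ) * ∑ a ∈ range i, (z a : ℂ) := by
    rw [Finset.mul_sum, Finset.mul_sum]
    exact Finset.sum_congr rfl (fun a ha => hz a ha)
  have e1 : i + 2 - (0 + 1) = i + 1 := by omega
  have e2 : i + 2 - 0 = i + 2 := by omega
  rw [e1, e2, he0, hy1', zero_add, he1, hy2']
  push_cast
  push_cast at h4
  linear_combination (-1) ^ (i+2+1) * h4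

/-- main algebraic step -/
lemma alg_main {ι : Type*} [Fintype ι] [DecidableEq ι] (p : ℕ) (hp : p.Prime) (hcard : Fintype.card ι = p + 1)
    (O : Subring ℂ) (v r : ι → ℂ) (i0 : ι) (hv0 : v i0 ∈ O)
    (Pz : ℕ → ℤ) (hP : ∀ s : ℕ, 1 ≤ s → ∑ i, v i ^ s = Pz s)
    (hmod : ∀ s : ℕ, 1 ≤ s → ((p:ℤ) ^ 2) ∣ Pz s - (Pz 1) ^ s)
    (M s : ℕ) (T : ℕ → ℤ) (hT : ∀ j, ∑ i, r i * v i ^ (s + j) = (p:ℂ) ^ M * T j) :
    ∃ z ∈ O, ∃ h ∈ O, r i0 * v i0 ^ s * ((((p + 1) * (p - 1)! : ℕ) : ℂ) * ((p + 1) * v i0 ^ p) + p * h)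
      = (p:ℂ) ^ M * z := by
  classical
  set e : ℕ → ℂ := fun j => (Finset.univ.val.map v).esymm j with he
  set c : ℕ := (p + 1) * (p - 1)! with hc
  have hpc : (p:ℂ) ≠ 0 := by exact_mod_cast hp.ne_zero
  have haev : ∀ j, MvPolynomial.aeval v (MvPolynomial.esymm ι ℂ j) = e j :=
    fun j => MvPolynomial.aeval_esymm_eq_multiset_esymm _ _ _ _
  have haevp : ∀ j, 1 ≤ j → MvPolynomial.aeval v (MvPolynomial.psum ι ℂ j) = (Pz j : ℂ) := by
    intro j hj
    rw [← hP j hj, MvPolynomial.psum]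
    simp
  have he0 : e 0 = 1 := by rw [← haev 0, MvPolynomial.esymm_zero, map_one]
  have hN : ∀ k : ℕ, 1 ≤ k → (k:ℂ) * e k = (-1) ^ (k+1) * ∑ i ∈ range k, (-1) ^ i * e i * (Pz (k - i) : ℂ) := by
    intro k _
    have h := congrArg (MvPolynomial.aeval v) (MvPolynomial.mul_esymm_eq_sum ι ℂ k)
    rw [map_mul, map_mul, map_pow, map_neg, map_one, map_sum, haev, map_natCast] at h
    rw [h]
    congr 1
    rw [← sum_anti_lt k (fun i j => (-1) ^ i * e i * (Pz j : ℂ))]
    apply Finset.sum_congr rfl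
    intro a ha
    simp only [mem_filter, HasAntidiagonal.mem_antidiagonal] at ha
    rw [map_mul, map_mul, map_pow, map_neg, map_one, haev, haevp a.2 (by omega)]
  have hNC := newton_cong e Pz ((p:ℤ)^2) hmod he0 hN
  -- c e_j is p times an integer
  have hce : ∀ j, j < p → ∃ y : ℤ, (c:ℂ) * e (j+2) = p * y := by
    intro j hj
    obtain ⟨z, hz⟩ := hNC (j+2) (by omega)
    push_cast at hz
    rcases lt_trichotomy (j+2) p with h | h | h
    · have hd : (j+2)! ∣ (p-1)! := Nat.factorial_dvd_factorial (by omega)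
      obtain ⟨d, hd⟩ := hd
      refine ⟨(p+1) * d * p * z, ?_⟩
      rw [hc, hd]
      push_cast
      linear_combination ((p:ℂ) + 1) * d * hz
    · have h1 : (j+2)! = p * (p-1)! := by
        rw [h]
        exact (Nat.mul_factorial_pred hp.ne_zero).symm
      refine ⟨(p+1) * z, ?_⟩
      rw [h1] at hz
      push_cast at hz
      have h2 : ((p-1)! : ℂ) * e (j+2) = p * z := by
        apply mul_left_cancel₀ hpc
        linear_combination hz
      rw [hc]
      push_cast
      linear_combination ((p:ℂ) + 1) * h2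
    · have h0 : j + 2 = p + 1 := by omega
      have h1 : (j+2)! = (p+1) * (p * (p-1)!) := by
        rw [h0, Nat.factorial_succ, Nat.mul_factorial_pred hp.ne_zero]
      refine ⟨z, ?_⟩
      rw [h1] at hz
      push_cast at hz
      apply mul_left_cancel₀ hpc
      rw [hc]
      push_cast
      linear_combination hz
  choose! y hy using hce
  -- the integral polynomial
  set t : ℤ := Pz 1 with ht
  have he1 : e 1 = t := by
    have := hN 1 le_rfl
    simpa [he0] using this
  set Y : Polynomial ℤ := ∑ j ∈ range p, Polynomial.C ((-1) ^ (j+2) * y j) * Polynomial.X ^ (p + 1 - (j + 2)) with hY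
  set Et : Polynomial ℤ := Polynomial.C (c:ℤ) * (Polynomial.X ^ (p+1) - Polynomial.C t * Polynomial.X ^ p)
    + Polynomial.C (p:ℤ) * Y with hEt
  have hcardm : Multiset.card (Finset.univ.val.map v) = p + 1 := by
    rw [Multiset.card_map]
    exact hcard
  have hprod : (∏ i, (Polynomial.X - Polynomial.C (v i))) =
      ∑ j ∈ range (p + 1 + 1), (-1) ^ j * (Polynomial.C (e j) * Polynomial.X ^ (p + 1 - j)) := by
    have := Multiset.prod_X_sub_X_eq_sum_esymm (Finset.univ.val.map v)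
    rw [hcardm, Multiset.map_map] at this
    exact this
  have hmapE : Et.map (Int.castRingHom ℂ) = Polynomial.C (c:ℂ) * ∏ i, (Polynomial.X - Polynomial.C (v i)) := by
    rw [hprod, Finset.sum_range_succ', Finset.sum_range_succ', mul_add, mul_add, Finset.mul_sum]
    have h1 : ∑ j ∈ range p, Polynomial.C (c:ℂ) * ((-1) ^ (j+1+1) * (Polynomial.C (e (j+1+1)) * Polynomial.X ^ (p + 1 - (j+1+1))))
        = Polynomial.C (p:ℂ) * Y.map (Int.castRingHom ℂ) := by
      rw [hY, Polynomial.map_sum, Finset.mul_sum]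
      apply Finset.sum_congr rfl
      intro j hj
      have h2 := hy j (mem_range.mp hj)
      have h3 : Polynomial.C (c:ℂ) * Polynomial.C (e (j+2)) = Polynomial.C (p:ℂ) * Polynomial.C (y j : ℂ) := by
        rw [← Polynomial.C_mul, ← Polynomial.C_mul, h2]
      have h4 : (Polynomial.C ((-1) ^ (j + 2) * y j) * Polynomial.X ^ (p + 1 - (j + 2)) : Polynomial ℤ).map (Int.castRingHom ℂ)
          = (-1) ^ (j+2) * Polynomial.C (y j : ℂ) * Polynomial.X ^ (p + 1 - (j + 2)) := by
        rw [Polynomial.map_mul, Polynomial.map_C, Polynomial.map_pow, Polynomial.map_X, eq_intCast]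
        push_cast
        rw [Polynomial.C_mul, Polynomial.C_pow, Polynomial.C_neg, Polynomial.C_1]
      rw [h4]
      linear_combination (-1) ^ (j+2) * Polynomial.X ^ (p + 1 - (j+1+1)) * h3
    rw [h1, he0, zero_add, he1, hEt]
    rw [Polynomial.map_add, Polynomial.map_mul, Polynomial.map_sub, Polynomial.map_mul, Polynomial.map_mul, Polynomial.map_C,
      Polynomial.map_C, Polynomial.map_C, Polynomial.map_pow, Polynomial.map_pow, Polynomial.map_X, eq_intCast, eq_intCast,
      eq_intCast, Int.cast_natCast, Int.cast_natCast, Nat.sub_zero, Nat.add_sub_cancel, Polynomial.C_1]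
    ring
  -- work in the ring O
  set v0 : O := ⟨v i0, hv0⟩ with hv0'
  set EO : Polynomial O := Et.map (Int.castRingHom O) with hEO
  have hevO : ∀ (P : Polynomial O) (x : O), ((P.eval x : O) : ℂ) = (P.map O.subtype).eval (x:ℂ) := by
    intro P x
    rw [Polynomial.eval_map]
    exact (Polynomial.eval₂_at_apply O.subtype x).symm
  have hcomp : (O.subtype).comp (Int.castRingHom O) = Int.castRingHom ℂ := RingHom.ext_int _ _
  have hEOc : EO.map O.subtype = Polynomial.C (c:ℂ) * ∏ i, (Polynomial.X - Polynomial.C (v i)) := by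
    rw [hEO, Polynomial.map_map, hcomp, hmapE]
  have hroot : EO.IsRoot v0 := by
    have h1 : ((EO.eval v0 : O) : ℂ) = 0 := by
      rw [hevO, hEOc, Polynomial.eval_mul, Polynomial.eval_prod]
      rw [Finset.prod_eq_zero (Finset.mem_univ i0) (by simp [hv0'])]
      simp
    rw [Polynomial.IsRoot]
    exact_mod_cast h1
  obtain ⟨Q, hQ⟩ := Polynomial.dvd_iff_isRoot.mpr hroot
  have hder : EO.derivative.eval v0 = Q.eval v0 := by
    rw [hQ]
    simp
  set Qc := Q.map O.subtype with hQc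
  have hQc2 : Qc = Polynomial.C (c:ℂ) * ∏ i ∈ Finset.univ.erase i0, (Polynomial.X - Polynomial.C (v i)) := by
    have h1 : (Polynomial.X - Polynomial.C (v i0)) * Qc
        = (Polynomial.X - Polynomial.C (v i0)) * (Polynomial.C (c:ℂ) * ∏ i ∈ Finset.univ.erase i0, (Polynomial.X - Polynomial.C (v i))) := by
      have h2 := congrArg (Polynomial.map O.subtype) hQ
      rw [hEOc, Polynomial.map_mul, Polynomial.map_sub, Polynomial.map_X, Polynomial.map_C,
        ← Finset.mul_prod_erase Finset.univ _ (Finset.mem_univ i0)] at h2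
      have h3 : O.subtype v0 = v i0 := rfl
      rw [h3] at h2
      rw [← h2]
      ring
    exact mul_left_cancel₀ (Polynomial.X_sub_C_ne_zero _) h1
  have hzero : ∀ i, i ≠ i0 → Qc.eval (v i) = 0 := by
    intro i hi
    rw [hQc2, Polynomial.eval_mul, Polynomial.eval_prod,
      Finset.prod_eq_zero (Finset.mem_erase.mpr ⟨hi, Finset.mem_univ i⟩) (by simp)]
    simp
  have hsum1 : ∑ i, r i * v i ^ s * Qc.eval (v i) = r i0 * v i0 ^ s * Qc.eval (v i0) := by
    apply Finset.sum_eq_single i0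
    · intro i _ hi
      rw [hzero i hi, mul_zero]
    · intro h
      exact absurd (Finset.mem_univ _) h
  have hsum2 : ∑ i, r i * v i ^ s * Qc.eval (v i) = ∑ j ∈ range (Qc.natDegree + 1), Qc.coeff j * ((p:ℂ) ^ M * T j) := by
    have h1 : ∀ j, Qc.coeff j * ((p:ℂ) ^ M * T j) = ∑ i, Qc.coeff j * (r i * v i ^ (s + j)) := by
      intro j
      rw [← hT j, Finset.mul_sum]
    rw [Finset.sum_congr rfl (fun j _ => h1 j), Finset.sum_comm]
    apply Finset.sum_congr rfl
    intro i _
    rw [Polynomial.eval_eq_sum_range, Finset.mul_sum]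
    apply Finset.sum_congr rfl
    intro j _
    rw [pow_add]
    ring
  set hY' : O := (Polynomial.map (Int.castRingHom O) Y).derivative.eval v0 with hhY
  refine ⟨∑ j ∈ range (Qc.natDegree + 1), ((Q.coeff j : O) : ℂ) * T j, ?_, ?_⟩
  · apply Subring.sum_mem
    intro j _
    exact O.mul_mem (Q.coeff j).2 (intCast_mem O _)
  refine ⟨-(c * t * v i0 ^ (p - 1)) + (hY' : ℂ), ?_, ?_⟩
  · apply O.add_mem
    · apply O.neg_mem
      exact O.mul_mem (O.mul_mem (natCast_mem O _) (intCast_mem O _)) (O.pow_mem hv0 _)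
    · exact hY'.2
  have hval : Qc.eval (v i0) = (c:ℂ) * ((p + 1) * v i0 ^ p) + p * (-(c * t * v i0 ^ (p - 1)) + (hY' : ℂ)) := by
    have h1 : Qc.eval (v i0) = ((Q.eval v0 : O) : ℂ) := by rw [hevO]
    rw [h1, ← hder, hEO, hEt]
    have h2 : Polynomial.eval v0 (Polynomial.derivative (Polynomial.map (Int.castRingHom O)
        (Polynomial.C (c:ℤ) * (Polynomial.X ^ (p+1) - Polynomial.C t * Polynomial.X ^ p) + Polynomial.C (p:ℤ) * Y)))
        = (c:O) * ((p + 1) * v0 ^ p - t * (p * v0 ^ (p-1))) + p * hY' := by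
      rw [hhY]
      simp only [Polynomial.map_add, Polynomial.map_mul, Polynomial.map_sub, Polynomial.map_pow, Polynomial.map_X,
        Polynomial.map_natCast, Polynomial.map_intCast, eq_intCast, Int.cast_natCast, Polynomial.derivative_add, Polynomial.derivative_mul,
        Polynomial.derivative_sub, Polynomial.derivative_X_pow, Polynomial.derivative_C, zero_mul, zero_add,
        Polynomial.eval_add, Polynomial.eval_mul, Polynomial.eval_sub, Polynomial.eval_C, Polynomial.eval_pow,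
        Polynomial.eval_X, Polynomial.eval_natCast, Polynomial.eval_intCast, Nat.add_sub_cancel, Polynomial.C_eq_natCast,
        Polynomial.C_eq_intCast, Polynomial.derivative_natCast, Polynomial.derivative_intCast]
      push_cast
      ring
    rw [h2]
    push_cast
    have h3 : (v0 : ℂ) = v i0 := rfl
    rw [h3]
    ring
  rw [← hval, ← hsum1, hsum2, Finset.mul_sum]
  apply Finset.sum_congr rfl
  intro j _
  rw [hQc, Polynomial.coeff_map]
  have h3 : O.subtype (Q.coeff j) = (Q.coeff j : ℂ) := rfl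
  rw [h3]
  ring

end Pool.Agent.H9.MF
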