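import Mathlib

namespace Pool.Agent.H9.MF

open Complex UpperHalfPlane Filter Topology

/-- convergence of a power series on the open unit disc -/
def Conv (F : PowerSeries ℂ) : Prop := ∀ x : ℂ, ‖x‖ < 1 → Summable (fun m => PowerSeries.coeff m F * x ^ m)

/-- evaluation -/
noncomputable def ev (F : PowerSeries ℂ) (x : ℂ) : ℂ := ∑' m, PowerSeries.coeff m F * x ^ m

lemma Conv.hasSum {F : PowerSeries ℂ} (h : Conv F) {x : ℂ} (hx : ‖x‖ < 1) :
    HasSum (fun m => PowerSeries.coeff m F * x ^ m) (ev F x) := (h x hx).hasSum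

lemma Conv.norm {F : PowerSeries ℂ} (h : Conv F) {x : ℂ} (hx : ‖x‖ < 1) :
    Summable (fun m => ‖PowerSeries.coeff m F * x ^ m‖) := (h x hx).norm

lemma Conv.add {F G : PowerSeries ℂ} (hF : Conv F) (hG : Conv G) : Conv (F + G) := by
  intro x hx
  have := (hF x hx).add (hG x hx)
  refine this.congr ?_
  intro m
  simp [add_mul]

lemma ev_add {F G : PowerSeries ℂ} (hF : Conv F) (hG : Conv G) {x : ℂ} (hx : ‖x‖ < 1) :
    ev (F + G) x = ev F x + ev G x := by
  unfold ev
  rw [← (hF x hx).tsum_add (hG x hx)]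
  congr 1
  ext m
  simp [add_mul]

lemma Conv.mul {F G : PowerSeries ℂ} (hF : Conv F) (hG : Conv G) : Conv (F * G) := by
  intro x hx
  have h := summable_norm_sum_mul_antidiagonal_of_summable_norm (hF.norm hx) (hG.norm hx)
  have h2 := h.of_norm
  refine h2.congr ?_
  intro m
  rw [PowerSeries.coeff_mul, Finset.sum_mul]
  refine Finset.sum_congr rfl ?_
  intro kl hkl
  rw [← Finset.HasAntidiagonal.mem_antidiagonal.mp hkl, pow_add]
  ring

lemma ev_mul {F G : PowerSeries ℂ} (hF : Conv F) (hG : Conv G) {x : ℂ} (hx : ‖x‖ < 1) :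
    ev (F * G) x = ev F x * ev G x := by
  unfold ev
  rw [tsum_mul_tsum_eq_tsum_sum_antidiagonal_of_summable_norm (hF.norm hx) (hG.norm hx)]
  congr 1
  ext m
  rw [PowerSeries.coeff_mul, Finset.sum_mul]
  refine Finset.sum_congr rfl ?_
  intro kl hkl
  rw [← Finset.HasAntidiagonal.mem_antidiagonal.mp hkl, pow_add]
  ring

lemma conv_of_finite {F : PowerSeries ℂ} {n : ℕ} (h : ∀ m, n < m → PowerSeries.coeff m F = 0) : Conv F := by
  intro x _
  apply summable_of_hasFiniteSupport
  refine (Set.finite_Iic n).subset ?_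
  intro m hm
  simp only [Function.mem_support, ne_eq] at hm
  simp only [Set.mem_Iic]
  by_contra hcon
  exact hm (by rw [h m (by omega)]; simp)

lemma conv_C (a : ℂ) : Conv (PowerSeries.C a) := by
  apply conv_of_finite (n := 0)
  intro m hm
  rw [PowerSeries.coeff_C, if_neg (by omega)]

lemma conv_zero : Conv 0 := by simpa using conv_C 0

lemma conv_one : Conv 1 := by simpa using conv_C 1

lemma conv_X_pow (n : ℕ) : Conv (PowerSeries.X ^ n) := by
  apply conv_of_finite (n := n)
  intro m hm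
  rw [PowerSeries.coeff_X_pow, if_neg (by omega)]

lemma ev_C (a : ℂ) (x : ℂ) : ev (PowerSeries.C a) x = a := by
  unfold ev
  rw [tsum_eq_single 0]
  · simp
  · intro m hm
    rw [PowerSeries.coeff_C, if_neg hm]
    simp

lemma ev_one (x : ℂ) : ev 1 x = 1 := by simpa using ev_C 1 x

lemma ev_zero (x : ℂ) : ev 0 x = 0 := by simpa using ev_C 0 x

lemma ev_X_pow (n : ℕ) (x : ℂ) : ev (PowerSeries.X ^ n) x = x ^ n := by
  unfold ev
  rw [tsum_eq_single n]
  · simp
  · intro m hm
    rw [PowerSeries.coeff_X_pow, if_neg hm]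
    simp

lemma ev_at_zero (F : PowerSeries ℂ) : ev F 0 = PowerSeries.coeff 0 F := by
  unfold ev
  rw [tsum_eq_single 0]
  · simp
  · intro m hm
    simp [hm]

lemma Conv.neg {F : PowerSeries ℂ} (hF : Conv F) : Conv (-F) := by
  have := (conv_C (-1)).mul hF
  have e : -F = PowerSeries.C (-1) * F := by simp
  rw [e]
  exact this

lemma ev_neg {F : PowerSeries ℂ} (hF : Conv F) {x : ℂ} (hx : ‖x‖ < 1) : ev (-F) x = - ev F x := by
  have e : -F = PowerSeries.C (-1) * F := by simp
  rw [e, ev_mul (conv_C _) hF hx, ev_C]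
  ring

lemma Conv.sub {F G : PowerSeries ℂ} (hF : Conv F) (hG : Conv G) : Conv (F - G) := by
  rw [sub_eq_add_neg]
  exact hF.add hG.neg

lemma ev_sub {F G : PowerSeries ℂ} (hF : Conv F) (hG : Conv G) {x : ℂ} (hx : ‖x‖ < 1) :
    ev (F - G) x = ev F x - ev G x := by
  rw [sub_eq_add_neg, ev_add hF hG.neg hx, ev_neg hG hx]
  ring

lemma Conv.pow {F : PowerSeries ℂ} (hF : Conv F) (n : ℕ) : Conv (F ^ n) := by
  induction n with
  | zero => simpa using conv_one
  | succ n ih =>
    rw [pow_succ]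
    exact ih.mul hF

lemma ev_pow {F : PowerSeries ℂ} (hF : Conv F) (n : ℕ) {x : ℂ} (hx : ‖x‖ < 1) :
    ev (F ^ n) x = ev F x ^ n := by
  induction n with
  | zero => simpa using ev_one x
  | succ n ih =>
    rw [pow_succ, ev_mul (hF.pow n) hF hx, ih, pow_succ]

/-- the power series represents an analytic function -/
lemma Conv.hasFPowerSeriesOnBall {F : PowerSeries ℂ} (hF : Conv F) :
    HasFPowerSeriesOnBall (ev F) (FormalMultilinearSeries.ofScalars ℂ fun m => PowerSeries.coeff m F) 0 1 := by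
  constructor
  · refine le_of_forall_lt_imp_le_of_dense fun r hr ↦ ?_
    lift r to NNReal using hr.ne_top
    apply FormalMultilinearSeries.le_radius_of_summable
    have hr' : ‖((r:ℝ):ℂ)‖ < 1 := by
      simp only [Complex.norm_real, NNReal.norm_eq]
      exact_mod_cast hr
    have := hF.norm hr'
    refine this.congr ?_
    intro m
    simp
  · simp
  · intro y hy
    rw [← ENNReal.coe_one, Metric.eball_coe, NNReal.coe_one, mem_ball_zero_iff] at hy
    have := hF.hasSum hy
    simpa [mul_comm] using this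

lemma Conv.differentiableOn {F : PowerSeries ℂ} (hF : Conv F) :
    DifferentiableOn ℂ (ev F) (Metric.ball 0 1) := by
  have := hF.hasFPowerSeriesOnBall.differentiableOn
  rw [← ENNReal.coe_one, Metric.eball_coe, NNReal.coe_one] at this
  exact this

lemma Conv.differentiableAt {F : PowerSeries ℂ} (hF : Conv F) {x : ℂ} (hx : ‖x‖ < 1) :
    DifferentiableAt ℂ (ev F) x :=
  hF.differentiableOn.differentiableAt (Metric.isOpen_ball.mem_nhds (by simpa using hx))

/-- uniqueness: agreeing near zero -/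
lemma eq_of_ev_eventuallyEq {F G : PowerSeries ℂ} (hF : Conv F) (hG : Conv G)
    (h : ∀ᶠ x in 𝓝[≠] (0:ℂ), ev F x = ev G x) : F = G := by
  have h1 := hF.hasFPowerSeriesOnBall.hasFPowerSeriesAt
  have h2 := hG.hasFPowerSeriesOnBall.hasFPowerSeriesAt
  have h3 : ev F =ᶠ[𝓝 0] ev G :=
    (h1.continuousAt.eventuallyEq_nhds_iff_eventuallyEq_nhdsNE h2.continuousAt).mp h
  have h4 := h1.congr h3
  have h5 := h4.eq_formalMultilinearSeries h2
  ext m
  simpa using congr_arg (FormalMultilinearSeries.coeff · m) h5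

end Pool.Agent.H9.MF
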