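import Pool.Agent.H9.MF.Final

namespace Pool.Agent.H9.MF

open Complex Filter Topology ModularForm MatrixGroups Manifold ComplexConjugate
open UpperHalfPlane hiding I

lemma InO.conj {D : ℤ} {z : ℂ} (h : InO D z) : InO D (conj z) := by
  obtain ⟨x, y, rfl⟩ := h
  refine ⟨x + y * D, -y, ?_⟩
  rw [map_add, map_mul, conj_omegaD, map_intCast, map_intCast]
  push_cast
  ring

/-- elements of the order in terms of the CM point -/
lemma order_point {D a b c : ℤ} (hD : D < 0) (hdisc : b ^ 2 - 4 * a * c = D) {α : ℍ}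
    (hα : (a:ℂ) * (α:ℂ) ^ 2 + b * α + c = 0) {π : ℂ} (hπ : InO D π) :
    (∃ u v : ℤ, π = u + v * (a * α)) ∧ conj ((a:ℂ) * α) = -b - a * α := by
  obtain ⟨x, y, rfl⟩ := hπ
  set s : ℂ := I * (Real.sqrt (-(D:ℝ)) : ℝ) with hs
  have hs2 : s ^ 2 = D := sD_sq hD
  have hcs : conj s = -s := conj_sD D
  have hω : omegaD D = ((D:ℂ) + s) / 2 := rfl
  have hdC : (b:ℂ) ^ 2 - 4 * a * c = D := by exact_mod_cast hdisc
  have hw : (2 * ((a:ℂ) * α) + b) ^ 2 = D := by
    linear_combination 4 * (a:ℂ) * hα + hdC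
  have hprod : (2 * ((a:ℂ) * α) + b - s) * (2 * ((a:ℂ) * α) + b + s) = 0 := by
    linear_combination hw - hs2
  obtain ⟨m1, hm1⟩ : ∃ m1, D + b = 2 * m1 := by
    have h1 := Int.even_mul_succ_self b
    obtain ⟨r, hr⟩ := h1
    exact ⟨r - 2 * a * c, by rw [← hdisc]; linear_combination hr⟩
  rcases mul_eq_zero.mp hprod with h | h
  · have h1 : s = 2 * ((a:ℂ) * α) + b := by linear_combination -h
    have hm1' : (D:ℂ) + b = 2 * m1 := by exact_mod_cast hm1
    refine ⟨⟨x + y * m1, y, ?_⟩, ?_⟩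
    · rw [hω, h1]
      push_cast
      linear_combination ((y:ℂ) / 2) * hm1'
    · have h2 : conj (2 * ((a:ℂ) * α) + b) = -(2 * ((a:ℂ) * α) + b) := by rw [← h1, hcs]
      rw [map_add, map_mul, map_ofNat, map_intCast] at h2
      linear_combination (1/2) * h2
  · have h1 : s = -(2 * ((a:ℂ) * α) + b) := by linear_combination h
    have hm2' : (D:ℂ) - b = 2 * (m1 - b) := by
      have : (D:ℂ) + b = 2 * m1 := by exact_mod_cast hm1
      linear_combination this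
    refine ⟨⟨x + y * (m1 - b), -y, ?_⟩, ?_⟩
    · rw [hω, h1]
      push_cast
      linear_combination ((y:ℂ) / 2) * hm2'
    · have h2 : conj (-(2 * ((a:ℂ) * α) + b)) = (2 * ((a:ℂ) * α) + b) := by rw [← h1, hcs, h1]; ring
      rw [map_neg, map_add, map_mul, map_ofNat, map_intCast] at h2
      linear_combination (-1/2) * h2

lemma isCoprime_int_ring {R : Type*} [CommRing R] {p : ℕ} (hp : p.Prime) {π' : R} (hdvd : π' ∣ (p:R)) {K : ℤ}
    (hK : ¬ (p:ℤ) ∣ K) : IsCoprime π' (K:R) := by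
  have hpz : Prime (p:ℤ) := Nat.prime_iff_prime_int.mp hp
  have h1 : IsCoprime (p:ℤ) K := (Irreducible.coprime_iff_not_dvd hpz.irreducible).mpr hK
  have h2 := h1.map (Int.castRingHom R)
  simp only [eq_intCast, Int.cast_natCast] at h2
  exact IsCoprime.of_isCoprime_of_dvd_left h2 hdvd

lemma disc_four {D a b c : ℤ} (hdisc : b ^ 2 - 4 * a * c = D) : ∃ m, D ^ 2 - D = 4 * m := by
  have h4 : D % 4 = 0 ∨ D % 4 = 1 := by
    have h5 : ∀ y x : ZMod 4, y ^ 2 - 4 * x = 0 ∨ y ^ 2 - 4 * x = 1 := by decide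
    rcases h5 (b : ZMod 4) ((a * c : ℤ) : ZMod 4) with h6 | h6
    · left
      have h7 : ((b ^ 2 - 4 * a * c : ℤ) : ZMod 4) = 0 := by
        push_cast; push_cast at h6; linear_combination h6
      rw [hdisc] at h7
      have := (ZMod.intCast_zmod_eq_zero_iff_dvd D 4).mp h7
      push_cast at this
      omega
    · right
      have h7 : ((b ^ 2 - 4 * a * c - 1 : ℤ) : ZMod 4) = 0 := by
        push_cast; push_cast at h6; linear_combination h6
      rw [hdisc] at h7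
      have := (ZMod.intCast_zmod_eq_zero_iff_dvd (D - 1) 4).mp h7
      push_cast at this
      omega
  rcases h4 with h4 | h4
  · obtain ⟨d, hd⟩ : ∃ d, D = 4 * d := ⟨D / 4, by omega⟩
    exact ⟨4 * d ^ 2 - d, by rw [hd]; ring⟩
  · obtain ⟨d, hd⟩ : ∃ d, D = 4 * d + 1 := ⟨D / 4, by omega⟩
    exact ⟨4 * d ^ 2 + d, by rw [hd]; ring⟩

lemma cm_final {k a' b' : ℕ} {hk : 3 ≤ k} {e : PowerSeries ℤ} (W : Wt k a' b' hk e) {p : ℕ} [hp : Fact p.Prime]
    {D a b c : ℤ} (hD : D < 0) (hdisc : b ^ 2 - 4 * a * c = D) {α : ℍ}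
    (hα : (a:ℂ) * (α:ℂ) ^ 2 + b * α + c = 0) {J : ℤ} (hJ : jj α = J)
    (hkr : (p = 2 ∧ D % 8 = 1) ∨ (p ≠ 2 ∧ ¬ (p:ℤ) ∣ D)) (hJ1 : ¬ (p:ℤ) ∣ J) (hJ2 : ¬ (p:ℤ) ∣ J - 1728)
    {π : ℂ} (hπ : InO D π) (hN : π * conj π = p) (n : ℕ) (hn : 1 ≤ n) (hpn : ¬ p ∣ n) (l : ℕ) :
    ∃ w, InO D w ∧ ((((PP (fun n => PowerSeries.coeff n e) (p ^ (l+1) * n)).eval J : ℤ) : ℂ)
        - π ^ (k - 2) * (((PP (fun n => PowerSeries.coeff n e) (p ^ l * n)).eval J : ℤ) : ℂ))
      = conj π ^ ((k-1)*(l+1)) * w := by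
  obtain ⟨⟨u, v, huv⟩, hconj⟩ := order_point hD hdisc hα hπ
  have hcπ : conj π = u + v * (-b - a * α) := by
    rw [huv, map_add, map_mul, map_intCast, map_intCast, hconj]
  have hdetC : ((u:ℂ) - b * v) * u - (-(c * v)) * (v * a) = p := by
    rw [← hN, hcπ, huv]
    linear_combination ((v:ℂ) ^ 2 * a) * hα
  have hdet : (u - b * v) * u - (-(c * v)) * (v * a) = p := by exact_mod_cast hdetC
  have hfix : (((u - b * v : ℤ)) : ℂ) * α + ((-(c * v) : ℤ) : ℂ) = α * (((v * a : ℤ) : ℂ) * α + (u:ℂ)) := by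
    push_cast
    linear_combination (-(v:ℂ)) * hα
  have hπ2 : ((v * a : ℤ) : ℂ) * α + (u:ℂ) = π := by
    rw [huv]; push_cast; ring
  obtain ⟨m, hm⟩ := disc_four hdisc
  set O := OD D m hD hm with hO
  have hπO : π ∈ O := hπ
  have hπO' : conj π ∈ O := hπ.conj
  obtain ⟨z, hz, h, hh, heq⟩ := cong_main W hJ O (u - b * v) (-(c * v)) (v * a) u hdet hfix
    (by rw [hπ2]; exact hπO) n hn hpn l
  rw [hπ2] at heq
  set ec : ℕ → ℤ := fun n => PowerSeries.coeff n e with hec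
  set x1 : ℤ := (PP ec (p ^ (l+1) * n)).eval J with hx1
  set x0 : ℤ := (PP ec (p ^ l * n)).eval J with hx0
  -- transfer to the ring
  let πR : O := ⟨π, hπO⟩
  let πR' : O := ⟨conj π, hπO'⟩
  have hppR : πR * πR' = (p : O) := by
    apply Subtype.ext
    push_cast
    exact hN
  have hdvd : πR' ∣ (p : O) := ⟨πR, by rw [← hppR]; ring⟩
  have htr : ¬ (p:ℤ) ∣ (2 * u - b * v) := by
    apply trace_prime hp.out (D := D) (v := v) hkr
    rw [← hdisc, ← hdet]
    ring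
  have hcop : IsCoprime πR' πR := by
    have h1 := isCoprime_int_ring (R := O) hp.out hdvd htr
    have h2 : ((2 * u - b * v : ℤ) : O) = πR + πR' := by
      apply Subtype.ext
      push_cast
      change (2:ℂ) * u - b * v = π + conj π
      rw [hcπ, huv]
      ring
    rw [h2] at h1
    have h3 : πR + πR' = πR + πR' * 1 := by ring
    rw [h3] at h1
    exact IsCoprime.of_add_mul_left_right h1
  have hS : IsCoprime πR' ((((J:ℤ) : O)) ^ (4 * a') * (((J - 1728 : ℤ) : O)) ^ (6 * b')) :=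
    IsCoprime.mul_right (isCoprime_int_ring hp.out hdvd hJ1).pow_right (isCoprime_int_ring hp.out hdvd hJ2).pow_right
  have hR : ((((J:ℤ) : O)) ^ (4 * a') * (((J - 1728 : ℤ) : O)) ^ (6 * b')) * ((x1:O) - πR ^ (k-2) * (x0:O))
      * (πR ^ 12) ^ ((k-1)*(l+1)) * ((((p + 1) * (p - 1).factorial : ℕ) : O) * ((p + 1) * (πR ^ 12) ^ p) + p * (⟨h, hh⟩ : O))
      = (p:O) ^ ((k-1)*(l+1)) * (⟨z, hz⟩ : O) := by
    apply Subtype.ext
    push_cast
    push_cast at heq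
    exact heq
  obtain ⟨w, hw⟩ := descend hp.out πR πR' _ _ _ _ hppR hcop _ _ hS hR
  refine ⟨(w : ℂ), w.2, ?_⟩
  have := congrArg (fun t : O => (t : ℂ)) hw
  push_cast at this
  exact this

end Pool.Agent.H9.MF
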