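import Pool.Agent.H9.MF.Val

namespace Pool.Agent.H9.MF

open Complex Filter Topology ModularForm MatrixGroups Manifold
open UpperHalfPlane hiding I

lemma jj_sub (τ : ℍ) : jj τ - 1728 = E₆ τ ^ 2 * (discriminant τ)⁻¹ := by
  have h := ModularForm.discriminant_eq_E₄_cube_sub_E₆_sq τ
  have hne := discriminant_ne_zero τ
  unfold jj
  field_simp
  have h2 : (1728:ℂ) * discriminant τ = E₄ τ ^ 3 - E₆ τ ^ 2 := by
    rw [h]; ring
  linear_combination (-1) * h2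

lemma NN_f1 {k a b : ℕ} (hk : 2 ≤ k) (hsum : k + 4 * a + 6 * b = 14) (τ : ℍ) :
    NN k a b τ * f1 a b τ = jj τ ^ (4 * a) * (jj τ - 1728) ^ (6 * b) := by
  rw [jj_sub]
  unfold NN f1 jj
  have hne := discriminant_ne_zero τ
  have h1 : discriminant τ ^ (k - 2) * (discriminant τ ^ (4*a) * discriminant τ ^ (6*b)) = discriminant τ ^ 12 := by
    rw [← pow_add, ← pow_add]
    congr 1
    omega
  generalize discriminant τ = d at hne h1 ⊢
  generalize (E₄ τ : ℂ) = x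
  generalize (E₆ τ : ℂ) = y
  have h2 : (x ^ 3 / d) ^ (4 * a) = x ^ (12 * a) * (d ^ (4 * a))⁻¹ := by
    rw [div_pow, ← pow_mul, div_eq_mul_inv]
    congr 2
    ring
  have h3 : (y ^ 2 * d⁻¹) ^ (6 * b) = y ^ (12 * b) * (d ^ (6 * b))⁻¹ := by
    rw [mul_pow, ← pow_mul, inv_pow]
    congr 2
    ring
  have h4 : (x ^ a * y ^ b * d⁻¹) ^ 11 * d ^ (k-2) * (x ^ a * y ^ b * d⁻¹)
      = x ^ (12 * a) * y ^ (12 * b) * ((d ^ 12)⁻¹ * d ^ (k-2)) := by
    have : (x ^ a * y ^ b * d⁻¹) ^ 11 * d ^ (k-2) * (x ^ a * y ^ b * d⁻¹)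
      = (x ^ a * y ^ b * d⁻¹) ^ 12 * d ^ (k-2) := by ring
    rw [this, mul_pow, mul_pow, ← pow_mul, ← pow_mul, inv_pow]
    ring
  rw [h2, h3, h4, ← h1]
  have h5 : d ^ (k-2) ≠ 0 := pow_ne_zero _ hne
  have h6 : d ^ (4*a) ≠ 0 := pow_ne_zero _ hne
  have h7 : d ^ (6*b) ≠ 0 := pow_ne_zero _ hne
  field_simp

/-- the main identity at a CM point -/
lemma cong_main {k a b : ℕ} {hk : 3 ≤ k} {e : PowerSeries ℤ} (W : Wt k a b hk e) {p : ℕ} [hp : Fact p.Prime]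
    {α : ℍ} {J : ℤ} (hJ : jj α = J) (O : Subring ℂ) (A B C D : ℤ) (hdet : A * D - B * C = p)
    (hfix : (A:ℂ) * α + B = α * ((C:ℂ) * α + D)) (hπ : (C:ℂ) * α + D ∈ O)
    (n : ℕ) (hn : 1 ≤ n) (hpn : ¬ p ∣ n) (l : ℕ) :
    ∃ z ∈ O, ∃ h ∈ O, ((J:ℂ) ^ (4 * a) * ((J:ℂ) - 1728) ^ (6 * b)) *
      ((((PP (fun n => PowerSeries.coeff n e) (p ^ (l+1) * n)).eval J : ℤ) : ℂ)
        - ((C:ℂ) * α + D) ^ (k - 2) * (((PP (fun n => PowerSeries.coeff n e) (p ^ l * n)).eval J : ℤ) : ℂ))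
      * (((C:ℂ) * α + D) ^ 12) ^ ((k-1)*(l+1))
      * ((((p + 1) * (p - 1).factorial : ℕ) : ℂ) * ((p + 1) * (((C:ℂ) * α + D) ^ 12) ^ p) + p * h)
      = (p:ℂ) ^ ((k-1)*(l+1)) * z := by
  set ec : ℕ → ℤ := fun n => PowerSeries.coeff n e with hec
  set π : ℂ := (C:ℂ) * α + D with hπdef
  have hp0 := hp.out.pos
  have hw : (4:ℤ) * a + 6 * b - 12 = 2 - k := by
    have := W.sum
    omega
  have hCD : C ≠ 0 ∨ D ≠ 0 := by
    by_contra h
    push Not at h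
    rw [h.1, h.2] at hdet
    simp at hdet
    exact hp.out.ne_zero (by exact_mod_cast hdet.symm)
  have hπ0 : π ≠ 0 := denom_ne hCD α
  obtain ⟨i0, hi0⟩ := cm_comp (p := p) α A B C D hdet hfix
  obtain ⟨R, hR, hR2⟩ := divis W (p := p) n hn hpn l
  obtain ⟨Pz, hP, hmod⟩ := power_sums (p := p) hJ
  set fA := gg a b ec (p ^ (l+1) * n) with hfA
  set fB := gg a b ec (p ^ l * n) with hfB
  set M := (k-1)*(l+1) with hM
  have hT : ∀ j : ℕ, ∃ T : ℤ, ∑ i, rr k a b p fA fB α i * vv p α i ^ (M + j) = (((p:ℤ) ^ M : ℤ) : ℂ) * T := by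
    intro j
    rw [sum_rr]
    obtain ⟨R', hR', hR2'⟩ := HH_div (a := a) (b := b) hp0 (by omega : 2 ≤ k) (intQ_gg W _) (intQ_gg W _) hR M hR2 (M + j) (by omega)
    exact int_value_div hJ (lvl_HH (by omega) hw (lvl_gg hw ec _) (lvl_gg hw ec _) (M+j)) _
      (pow_ne_zero _ (by exact_mod_cast hp.out.ne_zero)) hR' hR2'
  choose T hT using hT
  have hv0 : vv p α i0 = π ^ 12 := by
    unfold vv
    rw [hi0 (-12) dI lvl_dI]
    have hne := discriminant_ne_zero α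
    unfold dI
    rw [neg_neg]
    have : π ^ (12:ℤ) = π ^ 12 := by norm_cast
    rw [this]
    field_simp
  have hr0 : rr k a b p fA fB α i0 = NN k a b α * (fA α - π ^ (k-2) * fB α) := by
    unfold rr
    rw [hi0 (2 - k) fB (lvl_gg hw ec _)]
    have : π ^ (-(2 - (k:ℤ))) = π ^ (k - 2) := by
      rw [← zpow_natCast]
      congr 1
      omega
    rw [this]
  have hcard : Fintype.card (Option (ZMod p)) = p + 1 := by
    rw [Fintype.card_option, ZMod.card]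
  have hmain := alg_main p hp.out hcard O (vv p α) (rr k a b p fA fB α) i0 (by rw [hv0]; exact O.pow_mem hπ _)
    Pz hP hmod M M T (fun j => by rw [hT j]; push_cast; rfl)
  obtain ⟨z, hz, h, hh, heq⟩ := hmain
  refine ⟨z, hz, h, hh, ?_⟩
  rw [hv0, hr0] at heq
  have hval : ∀ m, gg a b ec m α = f1 a b α * (((PP ec m).eval J : ℤ) : ℂ) := by
    intro m
    unfold gg
    rw [hJ]
    have := Polynomial.aeval_algebraMap_apply ℂ J (PP ec m)
    congr 1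
  have hNf := NN_f1 (k := k) (a := a) (b := b) (by omega) W.sum α
  rw [hJ] at hNf
  rw [← heq, hfA, hfB, hval, hval, ← hNf]
  ring

end Pool.Agent.H9.MF
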