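import Pool.Agent.H9.MF.Princ

namespace Pool.Agent.H9.MF

open Complex Filter Topology ModularForm MatrixGroups Manifold Derivative
open UpperHalfPlane hiding I

/-- the Faber-type polynomials `P_m` -/
noncomputable def PP (e : ℕ → ℤ) : ℕ → Polynomial ℤ
  | 0 => 0
  | (m+1) => Polynomial.X * PP e m
      - ∑ i : Fin m, Polynomial.C (PowerSeries.coeff (i.val + 1) sJ) * PP e (m - i.val) + Polynomial.C (e m)
  termination_by m => m
  decreasing_by
    · omega
    · omega

lemma PP_zero (e : ℕ → ℤ) : PP e 0 = 0 := by rw [PP]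

lemma PP_succ (e : ℕ → ℤ) (m : ℕ) : PP e (m+1) = Polynomial.X * PP e m
      - ∑ i ∈ Finset.range m, Polynomial.C (PowerSeries.coeff (i + 1) sJ) * PP e (m - i)
      + Polynomial.C (e m) := by
  rw [PP]
  rw [Finset.sum_range]

/-- `f_1 = E_4^a E_6^b / Delta` -/
noncomputable def f1 (a b : ℕ) (τ : ℍ) : ℂ := E₄ τ ^ a * E₆ τ ^ b * (discriminant τ)⁻¹

noncomputable def F1 (a b : ℕ) : PowerSeries ℤ := s4 ^ a * s6 ^ b * sI

lemma hasQ_f1 (a b : ℕ) : HasQ (f1 a b) 1 (PowerSeries.map (Int.castRingHom ℂ) (F1 a b)) := by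
  have h1 := hasQ_E4.pow a
  have h2 := hasQ_E6.pow b
  rw [zero_mul] at h1 h2
  have h3 := (h1.mul h2).mul hasQ_invdisc
  unfold F1
  rw [map_mul, map_mul, map_pow, map_pow]
  rw [zero_add, zero_add] at h3
  exact h3

lemma F1_cc (a b : ℕ) : PowerSeries.constantCoeff (F1 a b) = 1 := by
  unfold F1
  rw [map_mul, map_mul, map_pow, map_pow, s4_cc, s6_cc, sI_cc]
  simp

lemma lvl_f1 (a b : ℕ) {w : ℤ} (hw : (4:ℤ) * a + 6 * b - 12 = w) : Lvl w (f1 a b) := by
  have h1 := (((lvl_modularForm E₄).pow a).mul ((lvl_modularForm E₆).pow b)).div lvl_disc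
  have h2 := h1.cast (b := w) (by rw [← hw]; ring)
  exact h2

/-- the dual forms `g_m` -/
noncomputable def gg (a b : ℕ) (e : ℕ → ℤ) (m : ℕ) (τ : ℍ) : ℂ :=
  f1 a b τ * Polynomial.aeval (jj τ) (PP e m)

lemma lvl_aeval (P : Polynomial ℤ) : Lvl 0 (fun τ => Polynomial.aeval (jj τ) P) := by
  induction P using Polynomial.induction_on' with
  | add p q hp hq =>
    have := hp.add hq
    simpa using this
  | monomial n a =>
    have := ((lvl_jj.pow n).cast (b := 0) (by ring)).const_mul (a:ℂ)
    simpa [Polynomial.aeval_monomial] using this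

lemma lvl_gg {a b : ℕ} {w : ℤ} (hw : (4:ℤ) * a + 6 * b - 12 = w) (e : ℕ → ℤ) (m : ℕ) : Lvl w (gg a b e m) := by
  have := (lvl_f1 a b hw).mul (lvl_aeval (PP e m))
  exact this.cast (by ring)

lemma gg_zero (a b : ℕ) (e : ℕ → ℤ) (τ : ℍ) : gg a b e 0 τ = 0 := by
  simp [gg, PP_zero]

lemma gg_succ (a b : ℕ) (e : ℕ → ℤ) (m : ℕ) (τ : ℍ) : gg a b e (m+1) τ =
    jj τ * gg a b e m τ - ∑ i ∈ Finset.range m, ((PowerSeries.coeff (i + 1) sJ : ℤ) : ℂ) * gg a b e (m - i) τ
      + (e m : ℂ) * f1 a b τ := by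
  unfold gg
  rw [PP_succ]
  simp only [map_add, map_sub, map_mul, map_sum, Polynomial.aeval_X, eq_intCast]
  rw [mul_add, mul_sub, Finset.mul_sum]
  congr 1
  · congr 1
    · ring
    · apply Finset.sum_congr rfl
      intro i _
      simp
      ring
  · simp
    ring

lemma trunc_dvd (F : PowerSeries ℤ) (m : ℕ) :
    PowerSeries.X ^ m ∣ F - ∑ i ∈ Finset.range m, PowerSeries.C (PowerSeries.coeff i F) * PowerSeries.X ^ i := by
  rw [PowerSeries.X_pow_dvd_iff]
  intro j hj
  rw [map_sub, map_sum]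
  simp only [PowerSeries.coeff_C_mul, PowerSeries.coeff_X_pow]
  rw [Finset.sum_eq_single j]
  · simp
  · intro i _ hi
    rw [if_neg (by omega)]
    simp
  · intro h
    exact absurd (Finset.mem_range.mpr hj) h

/-- the data of a weight -/
structure Wt (k a b : ℕ) (hk : 3 ≤ k) (e : PowerSeries ℤ) : Prop where
  sum : k + 4 * a + 6 * b = 14
  cc : PowerSeries.constantCoeff e = 1
  hasQ : HasQ (E hk) 0 (PowerSeries.map (Int.castRingHom ℂ) e)

/-- duality: the principal part and the constant term of `g_m` -/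
lemma duality {k a b : ℕ} {hk : 3 ≤ k} {e : PowerSeries ℤ} (W : Wt k a b hk e) (m : ℕ) :
    ∃ G : PowerSeries ℤ, HasQ (gg a b (fun n => PowerSeries.coeff n e) m) m (PowerSeries.map (Int.castRingHom ℂ) G) ∧
      PowerSeries.X ^ (m+1) ∣ G - 1 + PowerSeries.C (PowerSeries.coeff m e) * PowerSeries.X ^ m := by
  induction m using Nat.strong_induction_on with
  | _ m ih =>
  cases m with
  | zero =>
    refine ⟨0, ?_, ?_⟩
    · rw [map_zero]
      refine ⟨conv_zero, fun τ => ?_⟩
      rw [gg_zero, ev_zero, mul_zero]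
    · have : PowerSeries.coeff 0 e = 1 := by
        rw [PowerSeries.coeff_zero_eq_constantCoeff_apply, W.cc]
      rw [this]
      simp
  | succ m =>
    set ec : ℕ → ℤ := fun n => PowerSeries.coeff n e with hec
    have hG : ∀ n, n ≤ m → ∃ G : PowerSeries ℤ, HasQ (gg a b ec n) n (PowerSeries.map (Int.castRingHom ℂ) G) ∧
      PowerSeries.X ^ (n+1) ∣ G - 1 + PowerSeries.C (PowerSeries.coeff n e) * PowerSeries.X ^ n :=
      fun n hn => ih n (by omega)
    choose! G hG1 hG2 using hG
    set G' : PowerSeries ℤ := sJ * G m - ∑ i ∈ Finset.range m, PowerSeries.C (PowerSeries.coeff (i+1) sJ) *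
      (PowerSeries.X ^ (i+1) * G (m-i)) + PowerSeries.C (ec m) * (PowerSeries.X ^ m * F1 a b) with hG'
    have hq : HasQ (gg a b ec (m+1)) (m+1) (PowerSeries.map (Int.castRingHom ℂ) G') := by
      have q1 : HasQ (fun τ => jj τ * gg a b ec m τ) (m+1) (PowerSeries.map (Int.castRingHom ℂ) (sJ * G m)) := by
        have := hasQ_jj.mul (hG1 m le_rfl)
        rw [← map_mul, add_comm 1 m] at this
        exact this
      have q2 : HasQ (fun τ => ∑ i ∈ Finset.range m, ((PowerSeries.coeff (i + 1) sJ : ℤ) : ℂ) * gg a b ec (m - i) τ)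
          (m+1) (∑ i ∈ Finset.range m, PowerSeries.map (Int.castRingHom ℂ)
            (PowerSeries.C (PowerSeries.coeff (i+1) sJ) * (PowerSeries.X ^ (i+1) * G (m-i)))) := by
        apply HasQ.sum
        intro i hi
        have hi' := Finset.mem_range.mp hi
        have := (shift_int (hG1 (m-i) (by omega)) (i+1)).const_mul ((PowerSeries.coeff (i+1) sJ : ℤ) : ℂ)
        have e1 : m - i + (i+1) = m+1 := by omega
        rw [e1] at this
        rw [map_mul, PowerSeries.map_C]
        exact this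
      have q3 : HasQ (fun τ => (ec m : ℂ) * f1 a b τ) (m+1)
          (PowerSeries.map (Int.castRingHom ℂ) (PowerSeries.C (ec m) * (PowerSeries.X ^ m * F1 a b))) := by
        have := (shift_int (hasQ_f1 a b) m).const_mul (ec m : ℂ)
        rw [add_comm 1 m] at this
        rw [map_mul, PowerSeries.map_C]
        exact this
      have q4 := (q1.sub q2).add q3
      rw [← map_sum, ← map_sub, ← map_add] at q4
      exact q4.congr (fun τ => gg_succ a b ec m τ)
    have hd1 : PowerSeries.X ^ (m+1) ∣ G' - 1 := by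
      have d1 := hG2 m le_rfl
      have d2 : ∀ i ∈ Finset.range m, PowerSeries.X ^ (m+1) ∣
          PowerSeries.C (PowerSeries.coeff (i+1) sJ) * (PowerSeries.X ^ (i+1) * (G (m-i) - 1)) := by
        intro i hi
        have hi' := Finset.mem_range.mp hi
        have d := hG2 (m-i) (by omega)
        have d' : PowerSeries.X ^ (m-i) ∣ G (m-i) - 1 := by
          have h1 : (PowerSeries.X : PowerSeries ℤ) ^ (m-i) ∣ PowerSeries.X ^ (m-i+1) := pow_dvd_pow _ (by omega)
          have h2 := h1.trans d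
          have h3 : (PowerSeries.X : PowerSeries ℤ) ^ (m-i) ∣
            PowerSeries.C (PowerSeries.coeff (m-i) e) * PowerSeries.X ^ (m-i) := Dvd.intro_left _ rfl
          have h4 := dvd_sub h2 h3
          have e1 : G (m-i) - 1 + PowerSeries.C (PowerSeries.coeff (m-i) e) * PowerSeries.X ^ (m-i)
            - PowerSeries.C (PowerSeries.coeff (m-i) e) * PowerSeries.X ^ (m-i) = G (m-i) - 1 := by ring
          rwa [e1] at h4
        have e2 : (PowerSeries.X : PowerSeries ℤ) ^ (m+1) = PowerSeries.X ^ (i+1) * PowerSeries.X ^ (m-i) := by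
          rw [← pow_add]
          congr 1
          omega
        rw [e2]
        exact Dvd.dvd.mul_left (mul_dvd_mul_left _ d') _
      have d3 := Finset.dvd_sum d2
      have d4 := trunc_dvd sJ (m+1)
      have d5 : PowerSeries.X ∣ F1 a b - 1 := by
        rw [PowerSeries.X_dvd_iff, map_sub, F1_cc]
        simp
      have d6 : PowerSeries.X ∣ sJ - 1 := by
        rw [PowerSeries.X_dvd_iff, map_sub, sJ_cc]
        simp
      have d7 : PowerSeries.X ^ (m+1) ∣ PowerSeries.C (ec m) * PowerSeries.X ^ m * (F1 a b - 1) := by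
        rw [pow_succ]
        exact mul_dvd_mul (Dvd.intro_left _ rfl) d5
      have d8 : PowerSeries.X ^ (m+1) ∣ PowerSeries.C (ec m) * PowerSeries.X ^ m * (sJ - 1) := by
        rw [pow_succ]
        exact mul_dvd_mul (Dvd.intro_left _ rfl) d6
      have d9 := Dvd.dvd.mul_left d1 sJ
      have d10 := dvd_add (dvd_sub (dvd_add (dvd_sub d9 d3) d4) d8) d7
      have e3 : ∑ i ∈ Finset.range (m+1), PowerSeries.C (PowerSeries.coeff i sJ) * PowerSeries.X ^ i
          = ∑ i ∈ Finset.range m, PowerSeries.C (PowerSeries.coeff (i+1) sJ) * PowerSeries.X ^ (i+1) + 1 := by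
        rw [Finset.sum_range_succ']
        congr 1
        rw [PowerSeries.coeff_zero_eq_constantCoeff_apply, sJ_cc]
        simp
      rw [e3] at d10
      have e4 : ∑ i ∈ Finset.range m, PowerSeries.C (PowerSeries.coeff (i+1) sJ) * (PowerSeries.X ^ (i+1) * (G (m-i) - 1))
          = ∑ i ∈ Finset.range m, PowerSeries.C (PowerSeries.coeff (i+1) sJ) * (PowerSeries.X ^ (i+1) * G (m-i))
            - ∑ i ∈ Finset.range m, PowerSeries.C (PowerSeries.coeff (i+1) sJ) * PowerSeries.X ^ (i+1) := by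
        rw [← Finset.sum_sub_distrib]
        apply Finset.sum_congr rfl
        intro i _
        ring
      rw [e4] at d10
      convert d10 using 1
      rw [hG']
      ring
    refine ⟨G', hq, ?_⟩
    obtain ⟨B, hB⟩ := hd1
    have hG'B : G' = 1 + PowerSeries.X ^ (m+1) * B := by rw [← hB]; ring
    have hw : (4:ℤ) * a + 6 * b - 12 = 2 - k := by
      have := W.sum
      omega
    have hl2 : Lvl 2 (fun τ => E hk τ * gg a b ec (m+1) τ) :=
      ((lvl_modularForm (E hk)).mul (lvl_gg hw ec (m+1))).cast (by ring)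
    have hq2 := W.hasQ.mul hq
    rw [← map_mul, zero_add] at hq2
    have hc := const_term_zero _ _ _ hl2 hq2
    rw [PowerSeries.coeff_map, hG'B] at hc
    have e6 : e * (1 + PowerSeries.X ^ (m+1) * B) = e + PowerSeries.X ^ (m+1) * (e * B) := by ring
    rw [e6, map_add, PowerSeries.coeff_X_pow_mul', if_pos le_rfl, Nat.sub_self,
      PowerSeries.coeff_zero_eq_constantCoeff_apply, map_mul, W.cc, one_mul] at hc
    have hc2 : PowerSeries.coeff (m+1) e + PowerSeries.constantCoeff B = 0 := by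
      have : ((PowerSeries.coeff (m+1) e + PowerSeries.constantCoeff B : ℤ) : ℂ) = ((0:ℤ):ℂ) := by
        simpa using hc
      exact_mod_cast this
    have e7 : G' - 1 + PowerSeries.C (PowerSeries.coeff (m+1) e) * PowerSeries.X ^ (m+1)
        = PowerSeries.X ^ (m+1) * (B + PowerSeries.C (PowerSeries.coeff (m+1) e)) := by
      rw [hG'B]
      ring
    rw [e7, pow_succ (PowerSeries.X) (m+1)]
    apply mul_dvd_mul_left
    rw [PowerSeries.X_dvd_iff, map_add, PowerSeries.constantCoeff_C]
    linarith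

end Pool.Agent.H9.MF
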