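import Pool.Agent.H9.MF.Cong

namespace Pool.Agent.H9.MF

open Complex Filter Topology ModularForm MatrixGroups Manifold
open UpperHalfPlane hiding I

lemma ev_rescale (F : PowerSeries ℂ) (r x : ℂ) : ev (PowerSeries.rescale r F) x = ev F (r * x) := by
  unfold ev
  congr 1
  ext m
  rw [PowerSeries.coeff_rescale, mul_pow]
  ring

lemma conv_rescale {F : PowerSeries ℂ} (hF : Conv F) {r : ℂ} (hr : ‖r‖ ≤ 1) : Conv (PowerSeries.rescale r F) := by
  intro x hx
  have h1 : ‖r * x‖ < 1 := by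
    rw [norm_mul]
    calc ‖r‖ * ‖x‖ ≤ 1 * ‖x‖ := by gcongr
      _ < 1 := by simpa using hx
  have := hF (r * x) h1
  refine this.congr ?_
  intro m
  rw [PowerSeries.coeff_rescale, mul_pow]
  ring

/-- `A` is the sequence of Fourier coefficients of `E_k/(j - j(α))` -/
def IsExp {k : ℕ} (hk : 3 ≤ k) (α : ℍ) (A : ℕ → ℂ) : Prop :=
  ∀ᶠ τ : ℍ in atImInfty, HasSum (fun n => A n * qq τ ^ n) (E hk τ / (jj τ - jj α))

/-- denominators -/
noncomputable def DJ (J : ℂ) : PowerSeries ℂ :=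
  PowerSeries.map (Int.castRingHom ℂ) sJ - PowerSeries.C J * PowerSeries.X

lemma conv_X : Conv (PowerSeries.X) := by simpa using conv_X_pow 1

lemma ev_X (x : ℂ) : ev PowerSeries.X x = x := by simpa using ev_X_pow 1 x

lemma conv_DJ (J : ℂ) : Conv (DJ J) := hasQ_jj.conv.sub ((conv_C J).mul conv_X)

lemma ev_DJ (J : ℂ) (τ : ℍ) : ev (DJ J) (qq τ) = qq τ * (jj τ - J) := by
  unfold DJ
  rw [ev_sub hasQ_jj.conv ((conv_C J).mul conv_X) (norm_qq_lt τ), ev_mul (conv_C J) conv_X (norm_qq_lt τ), ev_C,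
    ev_X, ← hasQ_jj.eq]
  ring

lemma DJ_coeff0 (J : ℂ) : PowerSeries.coeff 0 (DJ J) = 1 := by
  unfold DJ
  rw [map_sub, PowerSeries.coeff_map, PowerSeries.coeff_zero_eq_constantCoeff_apply, sJ_cc]
  simp

lemma series_eq {k a b : ℕ} {hk : 3 ≤ k} {e : PowerSeries ℤ} (W : Wt k a b hk e) {α : ℍ} {A : ℕ → ℂ}
    (hA : IsExp hk α A) :
    PowerSeries.mk A * DJ (jj α) = PowerSeries.X * PowerSeries.map (Int.castRingHom ℂ) e := by
  obtain ⟨Y, hY⟩ := (atImInfty_mem _).mp hA
  set r : ℝ := Real.exp (-2 * Real.pi * (|Y| + 1)) with hr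
  have hr0 : 0 < r := Real.exp_pos _
  have hr1 : r ≤ 1 := by
    rw [hr, Real.exp_le_one_iff]
    have := Real.pi_pos
    have h2 := abs_nonneg Y
    nlinarith [mul_nonneg this.le h2]
  have hrC : (r:ℂ) ≠ 0 := by exact_mod_cast hr0.ne'
  have hrn : ‖(r:ℂ)‖ = r := by rw [Complex.norm_real, Real.norm_of_nonneg hr0.le]
  have key : ∀ x : ℂ, x ≠ 0 → ‖x‖ < 1 → ∃ τ : ℍ, qq τ = r * x ∧ HasSum (fun n => A n * (r * x) ^ n) (E hk τ / (jj τ - jj α)) := by
    intro x hx0 hx1
    have h1 : ‖(r:ℂ) * x‖ < r := by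
      rw [norm_mul, hrn]
      nlinarith
    obtain ⟨τ, hτ⟩ := exists_qq (mul_ne_zero hrC hx0) (lt_of_lt_of_le h1 hr1)
    refine ⟨τ, hτ, ?_⟩
    have h2 : ‖qq τ‖ = Real.exp (-2 * Real.pi * τ.im) := by
      unfold qq
      rw [Function.Periodic.norm_qParam]
      simp
    rw [← hτ, h2, hr, Real.exp_lt_exp] at h1
    have h3 : Y ≤ τ.im := by
      have := Real.pi_pos
      have h4 := le_abs_self Y
      nlinarith
    have := hY τ h3
    simp only [Set.mem_ofPred_eq] at this
    rw [hτ] at this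
    exact this
  have hAc : Conv (PowerSeries.rescale (r:ℂ) (PowerSeries.mk A)) := by
    intro x hx
    by_cases hx0 : x = 0
    · subst hx0
      apply summable_of_hasFiniteSupport
      refine (Set.finite_singleton 0).subset ?_
      intro m hm
      simp only [Function.mem_support, ne_eq] at hm
      simp only [Set.mem_singleton_iff]
      by_contra hcon
      exact hm (by simp [hcon])
    · obtain ⟨τ, _, hs⟩ := key x hx0 hx
      refine hs.summable.congr ?_
      intro m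
      rw [PowerSeries.coeff_rescale, PowerSeries.coeff_mk, mul_pow]
      ring
  have hrle : ‖(r:ℂ)‖ ≤ 1 := by rw [hrn]; exact hr1
  have hD := conv_rescale (conv_DJ (jj α)) hrle
  have hE := conv_rescale (conv_X.mul W.hasQ.conv) hrle
  apply PowerSeries.rescale_injective hrC
  rw [map_mul]
  apply eq_of_ev_eventuallyEq (hAc.mul hD) hE
  have h1 : ∀ᶠ x in 𝓝[≠] (0:ℂ), ‖x‖ < 1 := by
    apply eventually_nhdsWithin_of_eventually_nhds
    filter_upwards [Metric.ball_mem_nhds (0:ℂ) one_pos] with x hx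
    simpa using hx
  have h2 : ∀ᶠ x in 𝓝[≠] (0:ℂ), ev (PowerSeries.rescale (r:ℂ) (DJ (jj α))) x ≠ 0 := by
    apply eventually_nhdsWithin_of_eventually_nhds
    have hc : ContinuousAt (ev (PowerSeries.rescale (r:ℂ) (DJ (jj α)))) 0 :=
      (hD.differentiableAt (by simp)).continuousAt
    apply hc.eventually_ne
    rw [ev_rescale, mul_zero, ev_at_zero, DJ_coeff0]
    exact one_ne_zero
  filter_upwards [h1, h2, self_mem_nhdsWithin] with x hx hxD hx0
  obtain ⟨τ, hτ, hs⟩ := key x hx0 hx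
  rw [ev_rescale, ← hτ, ev_DJ] at hxD
  have hq := qq_ne τ
  have hjne : jj τ - jj α ≠ 0 := fun h => hxD (by rw [h, mul_zero])
  have e1 : ev (PowerSeries.rescale (r:ℂ) (PowerSeries.mk A)) x = E hk τ / (jj τ - jj α) := by
    rw [ev_rescale]
    unfold ev
    simp only [PowerSeries.coeff_mk]
    exact hs.tsum_eq
  rw [ev_mul hAc hD hx, e1, ev_rescale, ev_rescale, ← hτ, ev_DJ, ev_mul conv_X W.hasQ.conv (norm_qq_lt τ), ev_X,
    ← W.hasQ.eq]
  field_simp

lemma exp_eq {k a b : ℕ} {hk : 3 ≤ k} {e : PowerSeries ℤ} (W : Wt k a b hk e) {α : ℍ} {J : ℤ} (hJ : jj α = J)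
    {A : ℕ → ℂ} (hA : IsExp hk α A) (n : ℕ) :
    A n = (((PP (fun n => PowerSeries.coeff n e) n).eval J : ℤ) : ℂ) := by
  have hs := series_eq W hA
  have h0 : A 0 = 0 := by
    have := congrArg (PowerSeries.coeff 0) hs
    rw [PowerSeries.coeff_zero_eq_constantCoeff_apply, PowerSeries.coeff_zero_eq_constantCoeff_apply, map_mul, map_mul,
      PowerSeries.constantCoeff_X, zero_mul, ← PowerSeries.coeff_zero_eq_constantCoeff_apply (DJ (jj α)), DJ_coeff0, mul_one,
      ← PowerSeries.coeff_zero_eq_constantCoeff_apply, PowerSeries.coeff_mk] at this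
    exact this
  have hrec : ∀ m, A (m+1) = J * A m - ∑ i ∈ Finset.range m, ((PowerSeries.coeff (i+1) sJ : ℤ) : ℂ) * A (m - i)
      + ((PowerSeries.coeff m e : ℤ) : ℂ) := by
    intro m
    have h1 := congrArg (PowerSeries.coeff (m+1)) hs
    rw [PowerSeries.coeff_succ_X_mul, PowerSeries.coeff_map] at h1
    unfold DJ at h1
    rw [mul_sub, map_sub, mul_comm (PowerSeries.mk A) (PowerSeries.map (Int.castRingHom ℂ) sJ), PowerSeries.coeff_mul] at h1
    have h2 : PowerSeries.coeff (m+1) (PowerSeries.mk A * (PowerSeries.C (jj α) * PowerSeries.X)) = J * A m := by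
      rw [← mul_assoc, PowerSeries.coeff_succ_mul_X, mul_comm, PowerSeries.coeff_C_mul, PowerSeries.coeff_mk, hJ]
    rw [h2, Finset.Nat.sum_antidiagonal_eq_sum_range_succ
      (f := fun i j => PowerSeries.coeff i (PowerSeries.map (Int.castRingHom ℂ) sJ) * PowerSeries.coeff j (PowerSeries.mk A)),
      Finset.sum_range_succ', Finset.sum_range_succ] at h1
    simp only [PowerSeries.coeff_map, PowerSeries.coeff_mk, eq_intCast, Nat.sub_self, h0, mul_zero, add_zero, Nat.sub_zero] at h1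
    have h3 : PowerSeries.coeff 0 sJ = 1 := by rw [PowerSeries.coeff_zero_eq_constantCoeff_apply, sJ_cc]
    rw [h3] at h1
    have h4 : ∑ x ∈ Finset.range m, ((PowerSeries.coeff (x+1) sJ : ℤ) : ℂ) * A (m + 1 - (x + 1))
        = ∑ i ∈ Finset.range m, ((PowerSeries.coeff (i+1) sJ : ℤ) : ℂ) * A (m - i) := by
      apply Finset.sum_congr rfl
      intro i _
      congr 2
      omega
    rw [h4] at h1
    push_cast at h1
    linear_combination h1
  induction n using Nat.strong_induction_on with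
  | _ n ih =>
  cases n with
  | zero =>
    rw [h0, PP_zero]
    simp
  | succ m =>
    rw [hrec, PP_succ, ih m (by omega)]
    have h5 : ∑ i ∈ Finset.range m, ((PowerSeries.coeff (i+1) sJ : ℤ) : ℂ) * A (m - i)
        = ∑ i ∈ Finset.range m, ((PowerSeries.coeff (i+1) sJ : ℤ) : ℂ)
          * (((PP (fun n => PowerSeries.coeff n e) (m - i)).eval J : ℤ) : ℂ) := by
      apply Finset.sum_congr rfl
      intro i hi
      rw [ih (m - i) (by omega)]
    rw [h5]
    simp only [Polynomial.eval_add, Polynomial.eval_sub, Polynomial.eval_mul, Polynomial.eval_X, Polynomial.eval_C,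
      Polynomial.eval_finsetSum]
    push_cast
    ring

lemma exp_exists {k a b : ℕ} {hk : 3 ≤ k} {e : PowerSeries ℤ} (W : Wt k a b hk e) (α : ℍ) :
    ∃ A : ℕ → ℂ, IsExp hk α A := by
  have h1 : AnalyticAt ℂ (fun x => ev (PowerSeries.X * PowerSeries.map (Int.castRingHom ℂ) e) x / ev (DJ (jj α)) x) 0 := by
    apply AnalyticAt.div
    · exact (conv_X.mul W.hasQ.conv).hasFPowerSeriesOnBall.analyticAt
    · exact (conv_DJ (jj α)).hasFPowerSeriesOnBall.analyticAt
    · rw [ev_at_zero, DJ_coeff0]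
      exact one_ne_zero
  obtain ⟨P, hP⟩ := h1
  rw [hasFPowerSeriesAt_iff] at hP
  refine ⟨P.coeff, ?_⟩
  have h2 := (qParam_tendsto_atImInfty (h := 1) one_pos).eventually hP
  filter_upwards [h2] with τ hτ
  have e0 : Function.Periodic.qParam 1 (τ:ℂ) = qq τ := rfl
  rw [e0, zero_add, ev_DJ, ev_mul conv_X W.hasQ.conv (norm_qq_lt τ), ev_X, ← W.hasQ.eq, pow_zero, one_mul,
    mul_div_mul_left _ _ (qq_ne τ)] at hτ
  refine hτ.congr_fun ?_
  intro n
  rw [smul_eq_mul, mul_comm]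

end Pool.Agent.H9.MF
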