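import Pool.Agent.H9.MF.Expand

namespace Pool.Agent.H9.MF

open Complex Filter Topology ModularForm MatrixGroups Manifold ComplexConjugate
open UpperHalfPlane hiding I

/-- the generator `(D + sqrt D)/2` of the order of discriminant `D` -/
noncomputable def omegaD (D : ℤ) : ℂ := ((D:ℂ) + I * (Real.sqrt (-(D:ℝ)) : ℝ)) / 2

/-- membership in the order -/
def InO (D : ℤ) (z : ℂ) : Prop := ∃ x y : ℤ, z = x + y * omegaD D

lemma sD_sq {D : ℤ} (hD : D < 0) : (I * (Real.sqrt (-(D:ℝ)) : ℝ) : ℂ) ^ 2 = D := by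
  have h1 : (0:ℝ) ≤ -(D:ℝ) := by
    have : (D:ℝ) < 0 := by exact_mod_cast hD
    linarith
  have h2 : ((Real.sqrt (-(D:ℝ)) : ℝ) : ℂ) ^ 2 = -(D:ℂ) := by
    have := Real.sq_sqrt h1
    have h3 : (((Real.sqrt (-(D:ℝ))) ^ 2 : ℝ) : ℂ) = ((-(D:ℝ) : ℝ) : ℂ) := by rw [this]
    push_cast at h3
    exact h3
  rw [mul_pow, h2, Complex.I_sq]
  ring

lemma conj_sD (D : ℤ) : conj (I * (Real.sqrt (-(D:ℝ)) : ℝ) : ℂ) = -(I * (Real.sqrt (-(D:ℝ)) : ℝ)) := by
  rw [map_mul, Complex.conj_I, Complex.conj_ofReal]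
  ring

lemma omegaD_sq {D m : ℤ} (hD : D < 0) (hm : D ^ 2 - D = 4 * m) : omegaD D ^ 2 = D * omegaD D - m := by
  have h1 := sD_sq hD
  have h2 : (D:ℂ) ^ 2 - D = 4 * m := by exact_mod_cast hm
  unfold omegaD
  linear_combination (1/4) * h1 - (1/4) * h2

lemma conj_omegaD (D : ℤ) : conj (omegaD D) = D - omegaD D := by
  unfold omegaD
  rw [map_div₀, map_add, conj_sD, map_intCast, map_ofNat]
  ring

/-- the order as a subring -/
noncomputable def OD (D m : ℤ) (hD : D < 0) (hm : D ^ 2 - D = 4 * m) : Subring ℂ where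
  carrier := {z | InO D z}
  mul_mem' := by
    rintro _ _ ⟨x, y, rfl⟩ ⟨x', y', rfl⟩
    refine ⟨x * x' - y * y' * m, x * y' + x' * y + y * y' * D, ?_⟩
    push_cast
    linear_combination (y:ℂ) * y' * omegaD_sq hD hm
  one_mem' := ⟨1, 0, by simp⟩
  add_mem' := by
    rintro _ _ ⟨x, y, rfl⟩ ⟨x', y', rfl⟩
    exact ⟨x + x', y + y', by push_cast; ring⟩
  zero_mem' := ⟨0, 0, by simp⟩
  neg_mem' := by
    rintro _ ⟨x, y, rfl⟩
    exact ⟨-x, -y, by push_cast; ring⟩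

lemma mem_OD {D m : ℤ} {hD : D < 0} {hm : D ^ 2 - D = 4 * m} {z : ℂ} : z ∈ OD D m hD hm ↔ InO D z := Iff.rfl

/-- the descent in a commutative ring -/
lemma descend {R : Type*} [CommRing R] {p : ℕ} (hp : p.Prime) (π π' S y z h : R) (hpp : π * π' = p)
    (hc : IsCoprime π' π) (M N : ℕ) (hS : IsCoprime π' S)
    (heq : S * y * (π ^ 12) ^ N * ((((p + 1) * (p - 1).factorial : ℕ) : R) * ((p + 1) * (π ^ 12) ^ p) + p * h)
      = (p:R) ^ M * z) : ∃ w, y = π' ^ M * w := by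
  have hdvd : π' ∣ (p:R) := ⟨π, by rw [← hpp]; ring⟩
  have hint : ∀ K : ℕ, Nat.Coprime p K → IsCoprime π' (K:R) := by
    intro K hK
    have h1 : IsCoprime (p:ℤ) (K:ℤ) := Nat.isCoprime_iff_coprime.mpr hK
    have h2 := h1.map (Int.castRingHom R)
    simp only [eq_intCast, Int.cast_natCast] at h2
    exact IsCoprime.of_isCoprime_of_dvd_left h2 hdvd
  have hpp1 : Nat.Coprime p (p+1) := by simp
  have hpf : Nat.Coprime p (p-1).factorial := by
    rw [Nat.Prime.coprime_iff_not_dvd hp, hp.dvd_factorial]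
    have := hp.pos
    omega
  have c1 : IsCoprime π' ((((p + 1) * (p - 1).factorial : ℕ) : R) * ((p + 1) * (π ^ 12) ^ p)) := by
    apply IsCoprime.mul_right
    · exact hint _ (Nat.Coprime.mul_right hpp1 hpf)
    · apply IsCoprime.mul_right
      · have := hint _ hpp1
        push_cast at this
        exact this
      · exact (hc.pow_right).pow_right
  have c2 : IsCoprime π' ((((p + 1) * (p - 1).factorial : ℕ) : R) * ((p + 1) * (π ^ 12) ^ p) + p * h) := by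
    have e : (((p + 1) * (p - 1).factorial : ℕ) : R) * ((p + 1) * (π ^ 12) ^ p) + p * h
      = (((p + 1) * (p - 1).factorial : ℕ) : R) * ((p + 1) * (π ^ 12) ^ p) + π' * (π * h) := by
      rw [← hpp]; ring
    rw [e]
    exact c1.add_mul_left_right _
  have c3 : IsCoprime π' ((π ^ 12) ^ N) := (hc.pow_right).pow_right
  have d1 : π' ^ M ∣ (π ^ 12) ^ N * ((((p + 1) * (p - 1).factorial : ℕ) : R) * ((p + 1) * (π ^ 12) ^ p) + p * h) * S * y := by
    refine ⟨π ^ M * z, ?_⟩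
    have : π' ^ M * (π ^ M * z) = (p:R) ^ M * z := by
      rw [← hpp, mul_pow]; ring
    rw [this, ← heq]
    ring
  have c4 : IsCoprime (π' ^ M) ((π ^ 12) ^ N * ((((p + 1) * (p - 1).factorial : ℕ) : R) * ((p + 1) * (π ^ 12) ^ p) + p * h) * S) :=
    ((c3.mul_right c2).mul_right hS).pow_left
  obtain ⟨w, hw⟩ := c4.dvd_of_dvd_mul_left d1
  exact ⟨w, hw⟩

/-- `p` does not divide the trace -/
lemma trace_prime {p : ℕ} (hp : p.Prime) {D t v : ℤ} (hkr : (p = 2 ∧ D % 8 = 1) ∨ (p ≠ 2 ∧ ¬ (p:ℤ) ∣ D))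
    (h : t ^ 2 - 4 * p = v ^ 2 * D) : ¬ (p:ℤ) ∣ t := by
  rintro ⟨t', rfl⟩
  have hpz : Prime (p:ℤ) := Nat.prime_iff_prime_int.mp hp
  have hp0 : (p:ℤ) ≠ 0 := hpz.ne_zero
  rcases hkr with ⟨h2, hD8⟩ | ⟨h2, hD⟩
  · subst h2
    push_cast at h
    -- v is even
    have hv : v % 2 = 0 := by
      obtain ⟨d, hd⟩ : ∃ d, D = 8 * d + 1 := ⟨D / 8, by omega⟩
      rw [hd] at h
      have h6 : ∀ x y : ZMod 8, (2 * x) ^ 2 - 4 * 2 = y ^ 2 → 4 * y = 0 := by decide
      have h7 := congrArg (Int.cast : ℤ → ZMod 8) h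
      push_cast at h7
      have h8 : (8 : ZMod 8) = 0 := by decide
      rw [h8, zero_mul, zero_add, mul_one] at h7
      have h9 := h6 _ _ h7
      have h10 : ((4 * v : ℤ) : ZMod 8) = 0 := by
        push_cast
        exact h9
      have h11 := (ZMod.intCast_zmod_eq_zero_iff_dvd (4 * v) 8).mp h10
      push_cast at h11
      omega
    obtain ⟨v', rfl⟩ : ∃ v', v = 2 * v' := ⟨v / 2, by omega⟩
    have h5 : t' ^ 2 - 2 = v' ^ 2 * D := by
      have : 4 * (t' ^ 2 - 2) = 4 * (v' ^ 2 * D) := by linear_combination h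
      linarith
    obtain ⟨d, hd⟩ : ∃ d, D = 8 * d + 1 := ⟨D / 8, by omega⟩
    subst hd
    have h6 : ∀ x y : ZMod 8, x ^ 2 - 2 ≠ y ^ 2 := by decide
    have h7 := congrArg (Int.cast : ℤ → ZMod 8) h5
    push_cast at h7
    have h8 : (8 : ZMod 8) = 0 := by decide
    rw [h8, zero_mul, zero_add, mul_one] at h7
    exact h6 _ _ h7
  · have h3 : (p:ℤ) ∣ v ^ 2 * D := by
      rw [← h]
      exact ⟨p * t' ^ 2 - 4, by ring⟩
    rcases hpz.dvd_or_dvd h3 with h4 | h4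
    · obtain ⟨v', rfl⟩ := hpz.dvd_of_dvd_pow h4
      have h5 : (p:ℤ) * (p * t' ^ 2) - p * 4 = p * (p * (v' ^ 2 * D)) := by linear_combination h
      have h6 : (p:ℤ) * t' ^ 2 - 4 = p * (v' ^ 2 * D) := by
        apply mul_left_cancel₀ hp0
        linear_combination h5
      have h7 : (p:ℤ) ∣ 4 := ⟨t' ^ 2 - v' ^ 2 * D, by linear_combination -h6⟩
      have h8 : (p:ℤ) ∣ 2 := by
        have : (4:ℤ) = 2 ^ 2 := by norm_num
        rw [this] at h7
        exact hpz.dvd_of_dvd_pow h7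
      have h9 : p ∣ 2 := by exact_mod_cast h8
      exact h2 ((Nat.prime_dvd_prime_iff_eq hp Nat.prime_two).mp h9)
    · exact hD h4

end Pool.Agent.H9.MF
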