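import Pool.Agent.H9.MF.Basic

namespace Pool.Agent.H9.MF

open Complex Filter Topology ModularForm MatrixGroups Manifold
open UpperHalfPlane hiding I

/-- q-parameter -/
noncomputable def qq (τ : ℍ) : ℂ := Function.Periodic.qParam 1 (τ : ℂ)

lemma norm_qq_lt (τ : ℍ) : ‖qq τ‖ < 1 := Function.Periodic.norm_qParam_lt_one one_pos τ.im_pos

lemma qq_ne (τ : ℍ) : qq τ ≠ 0 := Function.Periodic.qParam_ne_zero _

lemma qq_eq (τ : ℍ) : qq τ = cexp (2 * Real.pi * I * τ) := by
  unfold qq Function.Periodic.qParam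
  simp

lemma exists_qq {x : ℂ} (h0 : x ≠ 0) (h1 : ‖x‖ < 1) : ∃ τ : ℍ, qq τ = x := by
  have him := Function.Periodic.im_invQParam_pos_of_norm_lt_one one_pos h1 h0
  refine ⟨⟨_, him⟩, ?_⟩
  exact Function.Periodic.qParam_right_inv one_ne_zero h0

/-- `f = q^{-N} F(q)` -/
structure HasQ (f : ℍ → ℂ) (N : ℕ) (F : PowerSeries ℂ) : Prop where
  conv : Conv F
  eq : ∀ τ : ℍ, qq τ ^ N * f τ = ev F (qq τ)

namespace HasQ

variable {f g : ℍ → ℂ} {N M : ℕ} {F G : PowerSeries ℂ}

lemma mul (hf : HasQ f N F) (hg : HasQ g M G) : HasQ (fun τ => f τ * g τ) (N + M) (F * G) := by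
  refine ⟨hf.conv.mul hg.conv, fun τ => ?_⟩
  rw [ev_mul hf.conv hg.conv (norm_qq_lt τ), ← hf.eq, ← hg.eq, pow_add]
  ring

lemma add (hf : HasQ f N F) (hg : HasQ g N G) : HasQ (fun τ => f τ + g τ) N (F + G) := by
  refine ⟨hf.conv.add hg.conv, fun τ => ?_⟩
  rw [ev_add hf.conv hg.conv (norm_qq_lt τ), ← hf.eq, ← hg.eq]
  ring

lemma sub (hf : HasQ f N F) (hg : HasQ g N G) : HasQ (fun τ => f τ - g τ) N (F - G) := by
  refine ⟨hf.conv.sub hg.conv, fun τ => ?_⟩
  rw [ev_sub hf.conv hg.conv (norm_qq_lt τ), ← hf.eq, ← hg.eq]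
  ring

lemma const (a : ℂ) : HasQ (fun _ => a) 0 (PowerSeries.C a) := by
  refine ⟨conv_C a, fun τ => ?_⟩
  rw [ev_C]
  simp

lemma const_mul (a : ℂ) (hf : HasQ f N F) : HasQ (fun τ => a * f τ) N (PowerSeries.C a * F) := by
  have := (const a).mul hf
  simpa using this

lemma pow (hf : HasQ f N F) (n : ℕ) : HasQ (fun τ => f τ ^ n) (N * n) (F ^ n) := by
  refine ⟨hf.conv.pow n, fun τ => ?_⟩
  rw [ev_pow hf.conv n (norm_qq_lt τ), ← hf.eq, mul_pow, pow_mul]

lemma shift (hf : HasQ f N F) (k : ℕ) : HasQ f (N + k) (PowerSeries.X ^ k * F) := by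
  refine ⟨(conv_X_pow k).mul hf.conv, fun τ => ?_⟩
  rw [ev_mul (conv_X_pow k) hf.conv (norm_qq_lt τ), ← hf.eq, ev_X_pow, pow_add]
  ring

lemma congr (hf : HasQ f N F) (h : ∀ τ, g τ = f τ) : HasQ g N F :=
  ⟨hf.conv, fun τ => by rw [h τ, hf.eq]⟩

lemma sum {ι : Type*} (s : Finset ι) {f : ι → ℍ → ℂ} {F : ι → PowerSeries ℂ}
    (h : ∀ i ∈ s, HasQ (f i) N (F i)) : HasQ (fun τ => ∑ i ∈ s, f i τ) N (∑ i ∈ s, F i) := by
  classical
  induction s using Finset.induction_on with
  | empty =>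
    refine ⟨by simpa using conv_zero, fun τ => ?_⟩
    simp [ev_zero]
  | insert a s ha ih =>
    have := (h a (Finset.mem_insert_self a s)).add (ih (fun i hi => h i (Finset.mem_insert_of_mem hi)))
    rw [Finset.sum_insert ha]
    refine this.congr ?_
    intro τ
    rw [Finset.sum_insert ha]

lemma unique (hf : HasQ f N F) (hg : HasQ f N G) : F = G := by
  apply eq_of_ev_eventuallyEq hf.conv hg.conv
  have h1 : ∀ᶠ x in 𝓝[≠] (0:ℂ), ‖x‖ < 1 := by
    apply eventually_nhdsWithin_of_eventually_nhds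
    filter_upwards [Metric.ball_mem_nhds (0:ℂ) one_pos] with x hx
    simpa using hx
  filter_upwards [h1, self_mem_nhdsWithin] with x hx hx0
  obtain ⟨τ, rfl⟩ := exists_qq hx0 hx
  rw [← hf.eq, ← hg.eq]

/-- removing a power of `q` -/
lemma unshift (hf : HasQ f (N+1) F) (h0 : PowerSeries.coeff 0 F = 0) :
    HasQ f N (PowerSeries.mk fun m => PowerSeries.coeff (m+1) F) := by
  set G : PowerSeries ℂ := PowerSeries.mk fun m => PowerSeries.coeff (m+1) F with hG
  have hFG : F = PowerSeries.X * G := by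
    ext m
    cases m with
    | zero => simpa using h0
    | succ m => rw [PowerSeries.coeff_succ_X_mul, hG, PowerSeries.coeff_mk]
  have hGc : Conv G := by
    intro x hx
    by_cases hx0 : x = 0
    · subst hx0
      apply summable_of_hasFiniteSupport
      refine (Set.finite_singleton 0).subset ?_
      intro m hm
      simp only [Function.mem_support, ne_eq] at hm
      simp only [Set.mem_singleton_iff]
      by_contra hcon
      exact hm (by simp [hcon])
    · have h1 := (summable_nat_add_iff 1).mpr (hf.conv x hx)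
      have h2 := h1.mul_left x⁻¹
      refine h2.congr ?_
      intro m
      rw [hG, PowerSeries.coeff_mk, pow_succ]
      field_simp
  refine ⟨hGc, fun τ => ?_⟩
  have h1 := hf.eq τ
  rw [hFG, ev_mul (by simpa using conv_X_pow 1) hGc (norm_qq_lt τ)] at h1
  have h2 : ev PowerSeries.X (qq τ) = qq τ := by simpa using ev_X_pow 1 (qq τ)
  rw [h2, pow_succ] at h1
  have h3 := qq_ne τ
  have h4 : qq τ * (qq τ ^ N * f τ) = qq τ * ev G (qq τ) := by rw [← h1]; ring
  exact mul_left_cancel₀ h3 h4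

lemma qq_comp_ofComplex {z : ℂ} (hz : 0 < z.im) : qq (ofComplex z) = Function.Periodic.qParam 1 z := by
  unfold qq
  rw [ofComplex_apply_of_im_pos hz]

lemma mdiff (hf : HasQ f N F) : MDiff f := by
  rw [UpperHalfPlane.mdifferentiable_iff]
  have h1 : DifferentiableOn ℂ (fun z : ℂ => (Function.Periodic.qParam 1 z ^ N)⁻¹ * ev F (Function.Periodic.qParam 1 z))
      upperHalfPlaneSet := by
    intro z hz
    have hq : ‖Function.Periodic.qParam 1 z‖ < 1 := Function.Periodic.norm_qParam_lt_one one_pos hz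
    have hd := hf.conv.differentiableAt hq
    have hd2 : DifferentiableAt ℂ (fun z : ℂ => Function.Periodic.qParam 1 z) z :=
      Function.Periodic.differentiable_qParam.differentiableAt
    have hd3 : DifferentiableAt ℂ (fun z : ℂ => ev F (Function.Periodic.qParam 1 z)) z :=
      DifferentiableAt.comp (g := ev F) (f := fun z : ℂ => Function.Periodic.qParam 1 z) z hd hd2
    have hne : Function.Periodic.qParam 1 z ^ N ≠ 0 := pow_ne_zero _ (Function.Periodic.qParam_ne_zero _)
    exact (((hd2.pow N).inv hne).mul hd3).differentiableWithinAt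
  refine h1.congr ?_
  intro z hz
  have h2 := hf.eq (ofComplex z)
  rw [qq_comp_ofComplex hz] at h2
  have hne : Function.Periodic.qParam 1 z ^ N ≠ 0 := pow_ne_zero _ (Function.Periodic.qParam_ne_zero _)
  rw [← h2, Function.comp_apply]
  field_simp

lemma hasSum (hf : HasQ f N F) (τ : ℍ) :
    HasSum (fun m => PowerSeries.coeff m F * qq τ ^ m) (qq τ ^ N * f τ) := by
  rw [hf.eq]
  exact hf.conv.hasSum (norm_qq_lt τ)

lemma of_hasSum (h : ∀ τ, HasSum (fun m => PowerSeries.coeff m F * qq τ ^ m) (qq τ ^ N * f τ)) :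
    HasQ f N F := by
  refine ⟨?_, fun τ => (h τ).tsum_eq.symm⟩
  intro x hx
  by_cases hx0 : x = 0
  · subst hx0
    apply summable_of_hasFiniteSupport
    refine (Set.finite_singleton 0).subset ?_
    intro m hm
    simp only [Function.mem_support, ne_eq] at hm
    simp only [Set.mem_singleton_iff]
    by_contra hcon
    exact hm (by simp [hcon])
  · obtain ⟨τ, rfl⟩ := exists_qq hx0 hx
    exact (h τ).summable

lemma bounded (hf : HasQ f 0 F) : IsBoundedAtImInfty f := by
  apply isBoundedAtImInfty_of_hasSum_qExpansion (h := 1) (c := fun m => PowerSeries.coeff m F) one_pos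
  intro τ
  have := hf.hasSum τ
  simpa [qq] using this

end HasQ

/-- bounded periodic holomorphic functions have a q-expansion -/
lemma hasQ_of_bounded {f : ℍ → ℂ} (hper : Function.Periodic (f ∘ ofComplex) 1) (hhol : MDiff f)
    (hb : IsBoundedAtImInfty f) : HasQ f 0 (qExpansion 1 f) := by
  apply HasQ.of_hasSum
  intro τ
  have := UpperHalfPlane.hasSum_qExpansion (h := 1) one_pos (by simpa using hper) hhol hb τ
  simpa [qq] using this

/-- modular forms of level one have a q-expansion -/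
lemma hasQ_modularForm {k : ℤ} (f : ModularForm 𝒮ℒ k) : HasQ f 0 (qExpansion 1 f) := by
  apply HasQ.of_hasSum
  intro τ
  have := ModularForm.hasSum_qExpansion (h := 1) f one_pos one_mem_strictPeriods_SL τ
  simpa [qq] using this

lemma hasQ_cuspForm {k : ℤ} (f : CuspForm 𝒮ℒ k) : HasQ f 0 (qExpansion 1 f) := by
  apply HasQ.of_hasSum
  intro τ
  have := ModularForm.hasSum_qExpansion (h := 1) f one_pos one_mem_strictPeriods_SL τ
  simpa [qq] using this

/-- level one slash invariance -/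
def Lvl (w : ℤ) (f : ℍ → ℂ) : Prop := ∀ γ : SL(2, ℤ), f ∣[w] γ = f

/-- build a modular form -/
noncomputable def mkForm {w : ℤ} {f : ℍ → ℂ} {F : PowerSeries ℂ} (hl : Lvl w f) (hf : HasQ f 0 F) :
    ModularForm 𝒮ℒ w where
  toFun := f
  slash_action_eq' := by
    rintro _ ⟨γ, rfl⟩
    exact hl γ
  holo' := hf.mdiff
  bdd_at_cusps' {c} hc := by
    rw [Subgroup.IsArithmetic.isCusp_iff_isCusp_SL2Z] at hc
    rw [OnePoint.isBoundedAt_iff_forall_SL2Z hc]
    intro γ _
    rw [hl γ]
    exact hf.bounded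

lemma mkForm_coe {w : ℤ} {f : ℍ → ℂ} {F : PowerSeries ℂ} (hl : Lvl w f) (hf : HasQ f 0 F) :
    ⇑(mkForm hl hf) = f := rfl

/-- negative weight -/
lemma eq_zero_of_neg {w : ℤ} {f : ℍ → ℂ} {F : PowerSeries ℂ} (hl : Lvl w f) (hf : HasQ f 0 F) (hw : w < 0) :
    f = 0 := ModularFormClass.levelOne_neg_weight_eq_zero hw (mkForm hl hf)

/-- weight zero -/
lemma eq_const_of_zero {f : ℍ → ℂ} {F : PowerSeries ℂ} (hl : Lvl 0 f) (hf : HasQ f 0 F) :
    ∀ τ, f τ = PowerSeries.coeff 0 F := by
  obtain ⟨c, hc⟩ := ModularFormClass.levelOne_weight_zero_const (mkForm hl hf)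
  have h1 : f = fun _ => c := by
    have : ⇑(mkForm hl hf) = Function.const ℍ c := hc
    rw [mkForm_coe] at this
    exact this
  have h2 : HasQ f 0 (PowerSeries.C c) := (HasQ.const c).congr (fun τ => by rw [h1])
  have h3 := hf.unique h2
  intro τ
  rw [h1, h3]
  simp

/-- weight two holomorphic forms vanish -/
lemma eq_zero_of_two {f : ℍ → ℂ} {F : PowerSeries ℂ} (hl : Lvl 2 f) (hf : HasQ f 0 F) : f = 0 := by
  have h := rank_zero_iff_forall_zero.mp ModularForm.levelOne_weight_two_rank_zero (mkForm hl hf)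
  have : ⇑(mkForm hl hf) = f := rfl
  rw [← this, h]
  rfl

end Pool.Agent.H9.MF
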