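import Pool.Agent.H9.MF.Forms

namespace Pool.Agent.H9.MF

open Complex Filter Topology ModularForm MatrixGroups Manifold
open UpperHalfPlane hiding I

lemma coe_ofC {z : ℂ} (hz : 0 < z.im) : ((ofComplex z : ℍ) : ℂ) = z := by
  rw [ofComplex_apply_of_im_pos hz]

lemma ofC_coe (τ : ℍ) : ofComplex (τ : ℂ) = τ := ofComplex_apply τ

lemma im_moeb {a b c d : ℝ} (h : 0 < a * d - b * c) (τ : ℍ) :
    0 < (((a:ℂ) * τ + b) / ((c:ℂ) * τ + d)).im := by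
  rw [Complex.div_im]
  have hne : ((c:ℂ) * τ + d) ≠ 0 := by
    intro h0
    have h1 := congrArg Complex.im h0
    have h2 := congrArg Complex.re h0
    simp at h1 h2
    rcases h1 with h1 | h1
    · subst h1
      simp at h2
      subst h2
      simp at h
    · exact absurd h1 τ.im_pos.ne'
  have hn : 0 < Complex.normSq ((c:ℂ) * τ + d) := Complex.normSq_pos.mpr hne
  rw [← sub_div]
  apply div_pos _ hn
  simp
  have := mul_pos h τ.im_pos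
  nlinarith [this]

lemma im_moeb_int {a b c d : ℤ} (h : 0 < a * d - b * c) (τ : ℍ) :
    0 < (((a:ℂ) * τ + b) / ((c:ℂ) * τ + d)).im := by
  have h' : (0:ℝ) < (a:ℝ) * d - b * c := by exact_mod_cast h
  simpa using im_moeb h' τ

lemma denom_ne {c d : ℤ} (h : c ≠ 0 ∨ d ≠ 0) (τ : ℍ) : ((c:ℂ) * τ + d) ≠ 0 := by
  intro h0
  have h1 := congrArg Complex.im h0
  have h2 := congrArg Complex.re h0
  simp at h1 h2
  rcases h1 with h1 | h1
  · subst h1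
    simp at h2
    rcases h with h | h
    · exact h rfl
    · exact h h2
  · exact absurd h1 τ.im_pos.ne'

/-- explicit transformation law -/
lemma Lvl.apply {w : ℤ} {f : ℍ → ℂ} (hf : Lvl w f) (a b c d : ℤ) (h : a * d - b * c = 1) (τ : ℍ) :
    f (ofComplex (((a:ℂ) * τ + b) / ((c:ℂ) * τ + d))) = ((c:ℂ) * τ + d) ^ w * f τ := by
  set γ : SL(2, ℤ) := ⟨!![a, b; c, d], by simp [Matrix.det_fin_two_of, h]⟩ with hγ
  have h1 := (slash_action_eq'_iff w f γ τ).mp (congrFun (hf γ) τ)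
  have h2 : γ • τ = ofComplex (((a:ℂ) * τ + b) / ((c:ℂ) * τ + d)) := by
    apply UpperHalfPlane.ext
    rw [coe_ofC (im_moeb_int (by rw [h]; norm_num) τ), coe_specialLinearGroup_apply]
    simp [hγ]
  rw [h2] at h1
  rw [h1]
  simp [hγ]

/-- level one invariance from the two generators -/
lemma lvl_of_gen {w : ℤ} {f : ℍ → ℂ} (hT : ∀ τ : ℍ, f (ofComplex ((τ:ℂ) + 1)) = f τ)
    (hS : ∀ τ : ℍ, f (ofComplex (-1 / (τ:ℂ))) = (τ:ℂ) ^ w * f τ) : Lvl w f := by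
  apply SlashInvariantForm.slash_action_generators_SL2Z
  · ext τ
    rw [SL_slash_apply, modular_S_smul, ModularGroup.denom_S]
    have h1 := hS τ
    have h2 : (⟨(-(τ:ℂ))⁻¹, τ.im_inv_neg_coe_pos⟩ : ℍ) = ofComplex (-1 / (τ:ℂ)) := by
      apply UpperHalfPlane.ext
      have e : (-(τ:ℂ))⁻¹ = -1 / (τ:ℂ) := by rw [neg_div, one_div, inv_neg]
      have e2 : 0 < (-1 / (τ:ℂ)).im := by rw [← e]; exact τ.im_inv_neg_coe_pos
      rw [coe_ofC e2]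
      exact e
    rw [h2, h1, mul_comm, ← mul_assoc, ← zpow_add₀ (ne_zero τ)]
    simp
  · ext τ
    rw [SL_slash_apply, modular_T_smul]
    have h1 := hT τ
    have h2 : ((1:ℝ) +ᵥ τ) = ofComplex ((τ:ℂ) + 1) := by
      apply UpperHalfPlane.ext
      have e2 : 0 < ((τ:ℂ) + 1).im := by simpa using τ.im_pos
      rw [coe_ofC e2, coe_vadd]
      push_cast
      ring
    have hd : denom ((ModularGroup.T : SL(2, ℤ)) : GL (Fin 2) ℝ) τ = 1 := by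
      rw [ModularGroup.denom_apply]
      simp [ModularGroup.T]
    rw [h2, h1, hd]
    simp

lemma Lvl.T {w : ℤ} {f : ℍ → ℂ} (hf : Lvl w f) (τ : ℍ) : f (ofComplex ((τ:ℂ) + 1)) = f τ := by
  have := hf.apply 1 1 0 1 (by norm_num) τ
  simpa using this

lemma Lvl.Tn {w : ℤ} {f : ℍ → ℂ} (hf : Lvl w f) (n : ℤ) (τ : ℍ) : f (ofComplex ((τ:ℂ) + n)) = f τ := by
  have := hf.apply 1 n 0 1 (by norm_num) τ
  simpa using this

lemma Lvl.S {w : ℤ} {f : ℍ → ℂ} (hf : Lvl w f) (τ : ℍ) : f (ofComplex (-1 / (τ:ℂ))) = (τ:ℂ) ^ w * f τ := by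
  have := hf.apply 0 (-1) 1 0 (by norm_num) τ
  simpa using this

/-- the operator `V_p` -/
noncomputable def Vp (p : ℕ) (f : ℍ → ℂ) (τ : ℍ) : ℂ := f (ofComplex ((p:ℂ) * τ))

/-- the operator `U_p` -/
noncomputable def Up (p : ℕ) (f : ℍ → ℂ) (τ : ℍ) : ℂ :=
  (p:ℂ)⁻¹ * ∑ b ∈ Finset.range p, f (ofComplex (((τ:ℂ) + b) / p))

/-- the Hecke operator -/
noncomputable def Tp (w : ℤ) (p : ℕ) (f : ℍ → ℂ) (τ : ℍ) : ℂ := Vp p f τ + (p:ℂ) ^ (1 - w) * Up p f τ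

lemma im_p {p : ℕ} (hp : 0 < p) (τ : ℍ) : 0 < ((p:ℂ) * τ).im := by
  have : (0:ℝ) < p := by exact_mod_cast hp
  simpa using mul_pos this τ.im_pos

lemma im_b {p : ℕ} (hp : 0 < p) (b : ℂ) (hb : b.im = 0) (τ : ℍ) : 0 < (((τ:ℂ) + b) / p).im := by
  have h1 : (0:ℝ) < p := by exact_mod_cast hp
  rw [Complex.div_natCast_im]
  apply div_pos _ h1
  simpa [hb] using τ.im_pos

/-- auxiliary: `f((τ+b)/p)` -/
noncomputable def fb (p : ℕ) (f : ℍ → ℂ) (τ : ℍ) (b : ℤ) : ℂ := f (ofComplex (((τ:ℂ) + b) / p))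

lemma fb_add {w : ℤ} {p : ℕ} (hp : 0 < p) {f : ℍ → ℂ} (hf : Lvl w f) (τ : ℍ) (b n : ℤ) :
    fb p f τ (b + p * n) = fb p f τ b := by
  unfold fb
  have h1 := im_b hp (b:ℂ) (by simp) τ
  have h2 := hf.Tn n (ofComplex (((τ:ℂ) + b) / p))
  rw [coe_ofC h1] at h2
  rw [← h2]
  congr 2
  have hp' : (p:ℂ) ≠ 0 := by exact_mod_cast hp.ne'
  push_cast
  field_simp
  ring

lemma fb_emod {w : ℤ} {p : ℕ} (hp : 0 < p) {f : ℍ → ℂ} (hf : Lvl w f) (τ : ℍ) (b : ℤ) :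
    fb p f τ (b % p) = fb p f τ b := by
  have := fb_add hp hf τ (b % p) (b / p)
  rw [Int.emod_add_mul_ediv] at this
  exact this.symm

lemma sum_fb {p : ℕ} [NeZero p] {f : ℍ → ℂ} (τ : ℍ) :
    ∑ b ∈ Finset.range p, f (ofComplex (((τ:ℂ) + b) / p)) = ∑ x : ZMod p, fb p f τ (x.val : ℤ) := by
  rw [← Finset.sum_nbij' (s := (Finset.univ : Finset (ZMod p))) (t := Finset.range p)
    (f := fun x => fb p f τ (x.val : ℤ)) (i := fun x => x.val) (j := fun b => (b : ZMod p))]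
  · intro x _
    exact Finset.mem_range.mpr (ZMod.val_lt x)
  · intro b _
    exact Finset.mem_univ _
  · intro x _
    exact ZMod.natCast_zmod_val x
  · intro b hb
    exact ZMod.val_cast_of_lt (Finset.mem_range.mp hb)
  · intro x _
    simp [fb]

lemma fb_cast {w : ℤ} {p : ℕ} [NeZero p] {f : ℍ → ℂ} (hf : Lvl w f) (τ : ℍ) (b : ℤ) :
    fb p f τ b = fb p f τ (((b : ZMod p).val : ℕ) : ℤ) := by
  rw [ZMod.val_intCast, fb_emod (NeZero.pos p) hf]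

lemma Up_eq {p : ℕ} [NeZero p] (f : ℍ → ℂ) (τ : ℍ) :
    Up p f τ = (p:ℂ)⁻¹ * ∑ x : ZMod p, fb p f τ (x.val : ℤ) := by
  unfold Up
  rw [sum_fb]

lemma coe_T (τ : ℍ) : ((ofComplex ((τ:ℂ) + 1) : ℍ) : ℂ) = τ + 1 :=
  coe_ofC (by simpa using τ.im_pos)

lemma coe_S (τ : ℍ) : ((ofComplex (-1 / (τ:ℂ)) : ℍ) : ℂ) = -1 / τ := by
  apply coe_ofC
  have e : (-(τ:ℂ))⁻¹ = -1 / (τ:ℂ) := by rw [neg_div, one_div, inv_neg]
  rw [← e]; exact τ.im_inv_neg_coe_pos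

lemma Vp_T {w : ℤ} {p : ℕ} (hp : 0 < p) {f : ℍ → ℂ} (hf : Lvl w f) (τ : ℍ) :
    Vp p f (ofComplex ((τ:ℂ) + 1)) = Vp p f τ := by
  unfold Vp
  rw [coe_T]
  have h2 := hf.Tn p (ofComplex ((p:ℂ) * τ))
  rw [coe_ofC (im_p hp τ)] at h2
  rw [← h2]
  congr 2
  push_cast
  ring

lemma Up_T {w : ℤ} {p : ℕ} [NeZero p] {f : ℍ → ℂ} (hf : Lvl w f) (τ : ℍ) :
    Up p f (ofComplex ((τ:ℂ) + 1)) = Up p f τ := by
  rw [Up_eq, Up_eq]
  congr 1
  have h1 : ∀ x : ZMod p, fb p f (ofComplex ((τ:ℂ) + 1)) (x.val : ℤ) = fb p f τ (((x + 1).val : ℕ) : ℤ) := by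
    intro x
    have e : fb p f (ofComplex ((τ:ℂ) + 1)) (x.val : ℤ) = fb p f τ ((x.val : ℤ) + 1) := by
      unfold fb
      rw [coe_T]
      congr 2
      push_cast
      ring
    rw [e, fb_cast hf]
    congr 3
    push_cast
    rw [ZMod.natCast_zmod_val]
  rw [Finset.sum_congr rfl (fun x _ => h1 x)]
  exact Equiv.sum_comp (Equiv.addRight (1 : ZMod p)) (fun y : ZMod p => fb p f τ (y.val : ℤ))

lemma Vp_S {w : ℤ} {p : ℕ} (hp : 0 < p) {f : ℍ → ℂ} (hf : Lvl w f) (τ : ℍ) :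
    Vp p f (ofComplex (-1 / (τ:ℂ))) = ((τ:ℂ) / p) ^ w * fb p f τ 0 := by
  unfold Vp fb
  rw [coe_S]
  have him := im_b hp 0 (by simp) τ
  have h2 := hf.S (ofComplex (((τ:ℂ) + 0) / p))
  rw [coe_ofC him] at h2
  have hp' : (p:ℂ) ≠ 0 := by exact_mod_cast hp.ne'
  have e : (p:ℂ) * (-1 / (τ:ℂ)) = -1 / (((τ:ℂ) + 0) / p) := by
    have := ne_zero τ
    rw [add_zero]
    field_simp
  rw [e, h2]
  simp

lemma fb_S_zero {w : ℤ} {p : ℕ} (hp : 0 < p) {f : ℍ → ℂ} (hf : Lvl w f) (τ : ℍ) :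
    fb p f (ofComplex (-1 / (τ:ℂ))) 0 = ((p:ℂ) * τ) ^ w * Vp p f τ := by
  unfold Vp fb
  rw [coe_S]
  have h2 := hf.S (ofComplex ((p:ℂ) * τ))
  rw [coe_ofC (im_p hp τ)] at h2
  have hp' : (p:ℂ) ≠ 0 := by exact_mod_cast hp.ne'
  have e : (-1 / (τ:ℂ) + ((0:ℤ):ℂ)) / p = -1 / ((p:ℂ) * τ) := by
    have := ne_zero τ
    field_simp
    simp
  rw [e, h2]

lemma fb_S {w : ℤ} {p : ℕ} (hp : 0 < p) {f : ℍ → ℂ} (hf : Lvl w f) (τ : ℍ) {b b' m : ℤ}
    (h : b * b' + 1 = p * m) :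
    fb p f (ofComplex (-1 / (τ:ℂ))) b = (τ:ℂ) ^ w * fb p f τ b' := by
  unfold fb
  rw [coe_S]
  have him := im_b hp (b':ℂ) (by simp) τ
  have h2 := hf.apply b (-m) p (-b') (by linear_combination (-1) * h) (ofComplex (((τ:ℂ) + b') / p))
  rw [coe_ofC him] at h2
  have hp' : (p:ℂ) ≠ 0 := by exact_mod_cast hp.ne'
  have hτ := ne_zero τ
  have hd : ((p:ℤ):ℂ) * (((τ:ℂ) + b') / p) + ((-b' : ℤ) : ℂ) = τ := by
    push_cast
    field_simp
    ring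
  have h3 : ((b:ℂ) * b' + 1) = p * m := by exact_mod_cast h
  have hn : ((b:ℂ) * (((τ:ℂ) + b') / p) + ((-m : ℤ) : ℂ)) = (b * τ - 1) / p := by
    push_cast
    field_simp
    linear_combination h3
  rw [hd, hn] at h2
  have e : (-1 / (τ:ℂ) + b) / p = (b * τ - 1) / p / τ := by
    field_simp
    ring
  rw [e, h2]

lemma lvl_Tp {w : ℤ} {p : ℕ} [hp : Fact p.Prime] {f : ℍ → ℂ} (hf : Lvl w f) : Lvl w (Tp w p f) := by
  have hp0 : 0 < p := hp.out.pos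
  have hp' : (p:ℂ) ≠ 0 := by exact_mod_cast hp0.ne'
  have : NeZero p := ⟨hp0.ne'⟩
  apply lvl_of_gen
  · intro τ
    unfold Tp
    rw [Vp_T hp0 hf, Up_T hf]
  · intro τ
    unfold Tp
    rw [Vp_S hp0 hf, Up_eq, Up_eq]
    rw [← Finset.add_sum_erase Finset.univ _ (Finset.mem_univ (0 : ZMod p)),
      ← Finset.add_sum_erase Finset.univ (fun x : ZMod p => fb p f τ (x.val : ℤ)) (Finset.mem_univ (0 : ZMod p))]
    have h0 : (((0 : ZMod p).val : ℕ) : ℤ) = 0 := by simp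
    rw [h0, fb_S_zero hp0 hf]
    have h1 : ∀ x ∈ (Finset.univ.erase (0 : ZMod p)), fb p f (ofComplex (-1 / (τ:ℂ))) (x.val : ℤ)
        = (τ:ℂ) ^ w * fb p f τ (((-x⁻¹ : ZMod p).val : ℕ) : ℤ) := by
      intro x hx
      have hx0 : x ≠ 0 := (Finset.mem_erase.mp hx).1
      have hdvd : (p:ℤ) ∣ (x.val : ℤ) * ((-x⁻¹ : ZMod p).val : ℤ) + 1 := by
        rw [← ZMod.intCast_zmod_eq_zero_iff_dvd]
        push_cast
        rw [ZMod.natCast_zmod_val, ZMod.natCast_zmod_val]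
        field_simp
        ring
      obtain ⟨m, hm⟩ := hdvd
      exact fb_S hp0 hf τ hm
    rw [Finset.sum_congr rfl h1, ← Finset.mul_sum]
    have h2 : ∑ x ∈ Finset.univ.erase (0 : ZMod p), fb p f τ (((-x⁻¹ : ZMod p).val : ℕ) : ℤ)
        = ∑ x ∈ Finset.univ.erase (0 : ZMod p), fb p f τ (x.val : ℤ) := by
      apply Finset.sum_nbij' (i := fun x => -x⁻¹) (j := fun x => -x⁻¹)
      · intro x hx
        have hx0 : x ≠ 0 := (Finset.mem_erase.mp hx).1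
        exact Finset.mem_erase.mpr ⟨by simpa using hx0, Finset.mem_univ _⟩
      · intro x hx
        have hx0 : x ≠ 0 := (Finset.mem_erase.mp hx).1
        exact Finset.mem_erase.mpr ⟨by simpa using hx0, Finset.mem_univ _⟩
      · intro x _
        simp [inv_neg]
      · intro x _
        simp [inv_neg]
      · intro x _
        rfl
    rw [h2, mul_zpow, div_zpow, zpow_sub₀ hp', zpow_one]
    have hw : (p:ℂ) ^ w ≠ 0 := zpow_ne_zero _ hp'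
    field_simp
    ring

end Pool.Agent.H9.MF
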