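import Pool.Agent.H9.MF.Hecke

namespace Pool.Agent.H9.MF

open Complex Filter Topology ModularForm MatrixGroups Manifold
open UpperHalfPlane hiding I

lemma qq_ofC {z : ℂ} (hz : 0 < z.im) : qq (ofComplex z) = cexp (2 * Real.pi * I * z) := by
  rw [qq_eq, coe_ofC hz]

lemma qq_p {p : ℕ} (hp : 0 < p) (τ : ℍ) : qq (ofComplex ((p:ℂ) * τ)) = qq τ ^ p := by
  rw [qq_ofC (im_p hp τ), qq_eq, ← Complex.exp_nat_mul]
  congr 1
  ring

lemma qq_b_pow {p : ℕ} (hp : 0 < p) (τ : ℍ) (b : ℕ) :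
    qq (ofComplex (((τ:ℂ) + b) / p)) ^ p = qq τ := by
  have hp' : (p:ℂ) ≠ 0 := by exact_mod_cast hp.ne'
  rw [qq_ofC (im_b hp (b:ℂ) (by simp) τ), qq_eq, ← Complex.exp_nat_mul]
  have e : (p:ℂ) * (2 * Real.pi * I * (((τ:ℂ) + b) / p)) = 2 * Real.pi * I * τ + b * (2 * Real.pi * I) := by
    field_simp
  rw [e, Complex.exp_add, Complex.exp_nat_mul_two_pi_mul_I, mul_one]

lemma qq_b {p : ℕ} (hp : 0 < p) (τ : ℍ) (b : ℕ) :
    qq (ofComplex (((τ:ℂ) + b) / p)) = qq (ofComplex (((τ:ℂ) + (0:ℕ)) / p)) * cexp (2 * Real.pi * I / p) ^ b := by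
  have hp' : (p:ℂ) ≠ 0 := by exact_mod_cast hp.ne'
  rw [qq_ofC (im_b hp (b:ℂ) (by simp) τ), qq_ofC (im_b hp ((0:ℕ):ℂ) (by simp) τ), ← Complex.exp_nat_mul,
    ← Complex.exp_add]
  congr 1
  field_simp
  push_cast
  ring

/-- `X -> X^p` -/
noncomputable def VS {R : Type*} [Semiring R] (p : ℕ) (F : PowerSeries R) : PowerSeries R :=
  PowerSeries.mk fun m => if p ∣ m then PowerSeries.coeff (m / p) F else 0

/-- every `p`-th coefficient -/
noncomputable def US {R : Type*} [Semiring R] (p : ℕ) (F : PowerSeries R) : PowerSeries R :=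
  PowerSeries.mk fun m => PowerSeries.coeff (p * m) F

lemma hasQ_Vp {p : ℕ} (hp : 0 < p) {f : ℍ → ℂ} {N : ℕ} {F : PowerSeries ℂ} (hf : HasQ f N F) :
    HasQ (Vp p f) (p * N) (VS p F) := by
  apply HasQ.of_hasSum
  intro τ
  have h1 := hf.hasSum (ofComplex ((p:ℂ) * τ))
  rw [qq_p hp] at h1
  have hinj : Function.Injective (fun m : ℕ => p * m) := fun a b h => Nat.eq_of_mul_eq_mul_left hp h
  have h2 : ∀ x ∉ Set.range (fun m : ℕ => p * m), PowerSeries.coeff x (VS p F) * qq τ ^ x = 0 := by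
    intro x hx
    have : ¬ p ∣ x := fun ⟨c, hc⟩ => hx ⟨c, hc.symm⟩
    simp [VS, this]
  rw [← hinj.hasSum_iff h2]
  have h3 : (fun x => PowerSeries.coeff x (VS p F) * qq τ ^ x) ∘ (fun m : ℕ => p * m)
      = fun m => PowerSeries.coeff m F * (qq τ ^ p) ^ m := by
    ext m
    simp [VS, Nat.mul_div_cancel_left m hp, pow_mul]
  rw [h3, pow_mul]
  exact h1

lemma geom_root {p : ℕ} (hp : 0 < p) (M : ℕ) :
    ∑ b ∈ Finset.range p, (cexp (2 * Real.pi * I / p) ^ b) ^ M = if p ∣ M then (p:ℂ) else 0 := by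
  have hprim := Complex.isPrimitiveRoot_exp p hp.ne'
  set ζ := cexp (2 * Real.pi * I / p) with hζ
  have h1 : ∀ b, (ζ ^ b) ^ M = (ζ ^ M) ^ b := fun b => by rw [← pow_mul, ← pow_mul, mul_comm]
  rw [Finset.sum_congr rfl (fun b _ => h1 b)]
  by_cases h : p ∣ M
  · rw [if_pos h, (hprim.pow_eq_one_iff_dvd M).mpr h]
    simp
  · rw [if_neg h]
    have hne : ζ ^ M ≠ 1 := fun hh => h ((hprim.pow_eq_one_iff_dvd M).mp hh)
    rw [geom_sum_eq hne]
    have : (ζ ^ M) ^ p = 1 := by rw [← pow_mul, mul_comm, pow_mul, hprim.pow_eq_one, one_pow]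
    rw [this]
    simp

lemma hasQ_Up {p : ℕ} (hp : 0 < p) {f : ℍ → ℂ} {N : ℕ} {F : PowerSeries ℂ} (hf : HasQ f (p * N) F) :
    HasQ (Up p f) N (US p F) := by
  have hp' : (p:ℂ) ≠ 0 := by exact_mod_cast hp.ne'
  apply HasQ.of_hasSum
  intro τ
  set x0 := qq (ofComplex (((τ:ℂ) + (0:ℕ)) / p)) with hx0
  have h1 : ∀ b ∈ Finset.range p, HasSum (fun M => PowerSeries.coeff M F * (x0 * cexp (2 * Real.pi * I / p) ^ b) ^ M)
      (qq τ ^ N * f (ofComplex (((τ:ℂ) + b) / p))) := by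
    intro b _
    have := hf.hasSum (ofComplex (((τ:ℂ) + b) / p))
    rw [pow_mul, qq_b_pow hp, qq_b hp τ b] at this
    exact this
  have h2 := hasSum_sum h1
  have h3 : (fun M => ∑ b ∈ Finset.range p, PowerSeries.coeff M F * (x0 * cexp (2 * Real.pi * I / p) ^ b) ^ M)
      = fun M => PowerSeries.coeff M F * x0 ^ M * (if p ∣ M then (p:ℂ) else 0) := by
    ext M
    rw [← geom_root hp M, Finset.mul_sum]
    apply Finset.sum_congr rfl
    intro b _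
    rw [mul_pow]
    ring
  rw [h3] at h2
  have hinj : Function.Injective (fun m : ℕ => p * m) := fun a b h => Nat.eq_of_mul_eq_mul_left hp h
  have h4 : ∀ x ∉ Set.range (fun m : ℕ => p * m),
      PowerSeries.coeff x F * x0 ^ x * (if p ∣ x then (p:ℂ) else 0) = 0 := by
    intro x hx
    have : ¬ p ∣ x := fun ⟨c, hc⟩ => hx ⟨c, hc.symm⟩
    simp [this]
  rw [← hinj.hasSum_iff h4] at h2
  have h5 : (fun x => PowerSeries.coeff x F * x0 ^ x * (if p ∣ x then (p:ℂ) else 0)) ∘ (fun m : ℕ => p * m)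
      = fun m => (p:ℂ) * (PowerSeries.coeff m (US p F) * qq τ ^ m) := by
    ext m
    have : x0 ^ (p * m) = qq τ ^ m := by
      rw [pow_mul, hx0, qq_b_pow hp]
    simp only [Function.comp_apply, dvd_mul_right, if_true, this, US, PowerSeries.coeff_mk]
    ring
  rw [h5] at h2
  have h6 := h2.mul_left (p:ℂ)⁻¹
  have e1 : (fun m => (p:ℂ)⁻¹ * ((p:ℂ) * (PowerSeries.coeff m (US p F) * qq τ ^ m)))
      = fun m => PowerSeries.coeff m (US p F) * qq τ ^ m := by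
    ext m
    field_simp
  have e2 : (p:ℂ)⁻¹ * ∑ i ∈ Finset.range p, qq τ ^ N * f (ofComplex (((τ:ℂ) + i) / p))
      = qq τ ^ N * Up p f τ := by
    unfold Up
    rw [← Finset.mul_sum]
    ring
  rw [e1, e2] at h6
  exact h6

/-- integral q-expansion -/
def IntQ (f : ℍ → ℂ) : Prop := ∃ (N : ℕ) (G : PowerSeries ℤ), HasQ f N (PowerSeries.map (Int.castRingHom ℂ) G)

lemma shift_int {f : ℍ → ℂ} {N : ℕ} {G : PowerSeries ℤ} (h : HasQ f N (PowerSeries.map (Int.castRingHom ℂ) G)) (k : ℕ) :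
    HasQ f (N + k) (PowerSeries.map (Int.castRingHom ℂ) (PowerSeries.X ^ k * G)) := by
  have := h.shift k
  rw [map_mul, map_pow, PowerSeries.map_X]
  exact this

lemma IntQ.add {f g : ℍ → ℂ} (hf : IntQ f) (hg : IntQ g) : IntQ (fun τ => f τ + g τ) := by
  obtain ⟨N, F, hF⟩ := hf
  obtain ⟨M, G, hG⟩ := hg
  have h1 := shift_int hF M
  have h2 := shift_int hG N
  rw [add_comm M N] at h2
  have h3 := h1.add h2
  rw [← map_add] at h3
  exact ⟨_, _, h3⟩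

lemma IntQ.mul {f g : ℍ → ℂ} (hf : IntQ f) (hg : IntQ g) : IntQ (fun τ => f τ * g τ) := by
  obtain ⟨N, F, hF⟩ := hf
  obtain ⟨M, G, hG⟩ := hg
  have h3 := hF.mul hG
  rw [← map_mul] at h3
  exact ⟨_, _, h3⟩

lemma IntQ.const (a : ℤ) : IntQ (fun _ => (a:ℂ)) := by
  refine ⟨0, PowerSeries.C a, ?_⟩
  rw [PowerSeries.map_C]
  exact HasQ.const _

lemma IntQ.const_mul {f : ℍ → ℂ} (hf : IntQ f) (a : ℤ) : IntQ (fun τ => (a:ℂ) * f τ) :=
  (IntQ.const a).mul hf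

lemma IntQ.sub {f g : ℍ → ℂ} (hf : IntQ f) (hg : IntQ g) : IntQ (fun τ => f τ - g τ) := by
  have := hf.add (hg.const_mul (-1))
  simpa [sub_eq_add_neg] using this

lemma IntQ.pow {f : ℍ → ℂ} (hf : IntQ f) (n : ℕ) : IntQ (fun τ => f τ ^ n) := by
  induction n with
  | zero => simpa using IntQ.const 1
  | succ n ih => simpa [pow_succ] using ih.mul hf

lemma IntQ.congr {f g : ℍ → ℂ} (hf : IntQ f) (h : ∀ τ, g τ = f τ) : IntQ g := by
  have : g = f := funext h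
  rw [this]; exact hf

lemma VS_map {p : ℕ} (G : PowerSeries ℤ) : VS p (PowerSeries.map (Int.castRingHom ℂ) G)
    = PowerSeries.map (Int.castRingHom ℂ) (VS p G) := by
  ext m
  simp only [VS, PowerSeries.coeff_mk, PowerSeries.coeff_map]
  split_ifs <;> simp

lemma US_map {p : ℕ} (G : PowerSeries ℤ) : US p (PowerSeries.map (Int.castRingHom ℂ) G)
    = PowerSeries.map (Int.castRingHom ℂ) (US p G) := by
  ext m
  simp only [US, PowerSeries.coeff_mk, PowerSeries.coeff_map]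

lemma IntQ.Vp {f : ℍ → ℂ} (hf : IntQ f) {p : ℕ} (hp : 0 < p) : IntQ (Vp p f) := by
  obtain ⟨N, F, hF⟩ := hf
  have := hasQ_Vp hp hF
  rw [VS_map] at this
  exact ⟨_, _, this⟩

lemma IntQ.Up {f : ℍ → ℂ} (hf : IntQ f) {p : ℕ} (hp : 0 < p) : IntQ (Up p f) := by
  obtain ⟨N, F, hF⟩ := hf
  have h1 := shift_int hF ((p - 1) * N)
  have e : N + (p - 1) * N = p * N := by
    obtain ⟨k, rfl⟩ : ∃ k, p = k + 1 := ⟨p - 1, by omega⟩
    simp
    ring
  rw [e] at h1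
  have := hasQ_Up hp h1
  rw [US_map] at this
  exact ⟨_, _, this⟩

/-- `U V = 1` on periodic functions -/
lemma Up_Vp {p : ℕ} (hp : 0 < p) {f : ℍ → ℂ} (hf : ∀ (n : ℤ) (τ : ℍ), f (ofComplex ((τ:ℂ) + n)) = f τ) :
    Up p (Vp p f) = f := by
  have hp' : (p:ℂ) ≠ 0 := by exact_mod_cast hp.ne'
  ext τ
  unfold Up Vp
  have h : ∀ b ∈ Finset.range p, f (ofComplex ((p:ℂ) * (ofComplex (((τ:ℂ) + b) / p) : ℍ))) = f τ := by
    intro b _
    rw [coe_ofC (im_b hp (b:ℂ) (by simp) τ)]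
    have e : (p:ℂ) * (((τ:ℂ) + b) / p) = (τ:ℂ) + ((b:ℤ):ℂ) := by
      push_cast
      field_simp
    rw [e]
    exact hf b τ
  rw [Finset.sum_congr rfl h]
  simp
  field_simp

lemma Up_sub {p : ℕ} {f g : ℍ → ℂ} (τ : ℍ) : Up p (fun τ => f τ - g τ) τ = Up p f τ - Up p g τ := by
  unfold Up
  rw [← mul_sub, ← Finset.sum_sub_distrib]

lemma Up_add {p : ℕ} {f g : ℍ → ℂ} (τ : ℍ) : Up p (fun τ => f τ + g τ) τ = Up p f τ + Up p g τ := by
  unfold Up
  rw [← mul_add, ← Finset.sum_add_distrib]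

lemma Up_const_mul {p : ℕ} {f : ℍ → ℂ} (c : ℂ) (τ : ℍ) : Up p (fun τ => c * f τ) τ = c * Up p f τ := by
  unfold Up
  rw [← Finset.mul_sum]
  ring

end Pool.Agent.H9.MF
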