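import Pool.Agent.H9.MF.Dual

namespace Pool.Agent.H9.MF

open Complex Filter Topology ModularForm MatrixGroups Manifold Derivative
open UpperHalfPlane hiding I

lemma HasQ.unshift' {f : ℍ → ℂ} {N : ℕ} {F : PowerSeries ℂ} (k : ℕ) :
    HasQ f (N + k) (PowerSeries.X ^ k * F) → HasQ f N F := by
  induction k with
  | zero => intro h; simpa using h
  | succ k ih =>
    intro h
    apply ih
    have h0 : PowerSeries.coeff 0 (PowerSeries.X ^ (k+1) * F) = 0 := by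
      rw [PowerSeries.coeff_X_pow_mul', if_neg (by omega)]
    have h1 := HasQ.unshift (N := N + k) h h0
    have e : (PowerSeries.mk fun m => PowerSeries.coeff (m+1) (PowerSeries.X ^ (k+1) * F)) = PowerSeries.X ^ k * F := by
      ext m
      rw [PowerSeries.coeff_mk, pow_succ', mul_assoc, PowerSeries.coeff_succ_X_mul]
    rw [e] at h1
    exact h1

lemma hasQ_qinv (m : ℕ) : HasQ (fun τ => (qq τ ^ m)⁻¹) m 1 := by
  refine ⟨conv_one, fun τ => ?_⟩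
  rw [ev_one, mul_inv_cancel₀ (pow_ne_zero _ (qq_ne τ))]

lemma pp_bdd {k a b : ℕ} {hk : 3 ≤ k} {e : PowerSeries ℤ} (W : Wt k a b hk e) (m : ℕ) (hm : 1 ≤ m) :
    ∃ H : PowerSeries ℂ, HasQ (fun τ => gg a b (fun n => PowerSeries.coeff n e) m τ - (qq τ ^ m)⁻¹) 0 H := by
  obtain ⟨G, hG1, hG2⟩ := duality W m
  have h1 := hG1.sub (hasQ_qinv m)
  have d : PowerSeries.X ^ m ∣ G - 1 := by
    have h1 : (PowerSeries.X : PowerSeries ℤ) ^ m ∣ PowerSeries.X ^ (m+1) := pow_dvd_pow _ (by omega)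
    have h2 := h1.trans hG2
    have h3 : (PowerSeries.X : PowerSeries ℤ) ^ m ∣
      PowerSeries.C (PowerSeries.coeff m e) * PowerSeries.X ^ m := Dvd.intro_left _ rfl
    have h4 := dvd_sub h2 h3
    have e1 : G - 1 + PowerSeries.C (PowerSeries.coeff m e) * PowerSeries.X ^ m
      - PowerSeries.C (PowerSeries.coeff m e) * PowerSeries.X ^ m = G - 1 := by ring
    rwa [e1] at h4
  obtain ⟨B, hB⟩ := d
  have e2 : PowerSeries.map (Int.castRingHom ℂ) G - 1 = PowerSeries.X ^ m * PowerSeries.map (Int.castRingHom ℂ) B := by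
    have := congrArg (PowerSeries.map (Int.castRingHom ℂ)) hB
    rw [map_sub, map_one, map_mul, map_pow, PowerSeries.map_X] at this
    exact this
  rw [e2] at h1
  refine ⟨PowerSeries.map (Int.castRingHom ℂ) B, HasQ.unshift' m (N := 0) ?_⟩
  rw [zero_add]
  exact h1

lemma geom_root' {p : ℕ} {ζ : ℂ} (hprim : IsPrimitiveRoot ζ p) (M : ℕ) :
    ∑ b ∈ Finset.range p, (ζ ^ b) ^ M = if p ∣ M then (p:ℂ) else 0 := by
  have h1 : ∀ b, (ζ ^ b) ^ M = (ζ ^ M) ^ b := fun b => by rw [← pow_mul, ← pow_mul, mul_comm]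
  rw [Finset.sum_congr rfl (fun b _ => h1 b)]
  by_cases h : p ∣ M
  · rw [if_pos h, (hprim.pow_eq_one_iff_dvd M).mpr h]
    simp
  · rw [if_neg h]
    have hne : ζ ^ M ≠ 1 := fun hh => h ((hprim.pow_eq_one_iff_dvd M).mp hh)
    rw [geom_sum_eq hne]
    have : (ζ ^ M) ^ p = 1 := by rw [← pow_mul, mul_comm, pow_mul, hprim.pow_eq_one, one_pow]
    rw [this]
    simp

lemma Vp_qinv {p : ℕ} (hp : 0 < p) (m : ℕ) (τ : ℍ) :
    Vp p (fun τ => (qq τ ^ m)⁻¹) τ = (qq τ ^ (p * m))⁻¹ := by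
  change (qq (ofComplex ((p:ℂ) * τ)) ^ m)⁻¹ = _
  rw [qq_p hp, ← pow_mul]

lemma Up_qinv {p : ℕ} (hp : 0 < p) (m : ℕ) (τ : ℍ) :
    Up p (fun τ => (qq τ ^ m)⁻¹) τ = if p ∣ m then (qq τ ^ (m / p))⁻¹ else 0 := by
  have hp' : (p:ℂ) ≠ 0 := by exact_mod_cast hp.ne'
  have hprim := (Complex.isPrimitiveRoot_exp p hp.ne').inv
  have hg := geom_root' hprim m
  unfold Up
  set x0 := qq (ofComplex (((τ:ℂ) + (0:ℕ)) / p)) with hx0
  set ζ := cexp (2 * Real.pi * I / p) with hζ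
  have h1 : ∀ b ∈ Finset.range p, (qq (ofComplex (((τ:ℂ) + b) / p)) ^ m)⁻¹ = (x0 ^ m)⁻¹ * ((ζ⁻¹) ^ b) ^ m := by
    intro b _
    rw [qq_b hp τ b, mul_pow, mul_inv, inv_pow, inv_pow]
  rw [Finset.sum_congr rfl h1, ← Finset.mul_sum, hg]
  by_cases h : p ∣ m
  · rw [if_pos h, if_pos h]
    obtain ⟨c, rfl⟩ := h
    rw [Nat.mul_div_cancel_left c hp, pow_mul, hx0, qq_b_pow hp]
    field_simp
  · rw [if_neg h, if_neg h]
    simp

lemma Vp_sub' {p : ℕ} {f g : ℍ → ℂ} (τ : ℍ) : Vp p (fun τ => f τ - g τ) τ = Vp p f τ - Vp p g τ := rfl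

/-- the Hecke relation -/
lemma hecke_rel {k a b : ℕ} {hk : 3 ≤ k} {e : PowerSeries ℤ} (W : Wt k a b hk e) {p : ℕ} [hp : Fact p.Prime]
    (m : ℕ) (hm : 1 ≤ m) (τ : ℍ) :
    Tp (2 - k) p (gg a b (fun n => PowerSeries.coeff n e) m) τ = gg a b (fun n => PowerSeries.coeff n e) (p * m) τ
      + (if p ∣ m then (p:ℂ) ^ (k - 1) * gg a b (fun n => PowerSeries.coeff n e) (m / p) τ else 0) := by
  have hp0 := hp.out.pos
  set ec : ℕ → ℤ := fun n => PowerSeries.coeff n e with hec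
  have hw : (4:ℤ) * a + 6 * b - 12 = 2 - k := by
    have := W.sum
    omega
  have hz : (p:ℂ) ^ (1 - (2 - (k:ℤ))) = (p:ℂ) ^ (k - 1) := by
    rw [← zpow_natCast]
    congr 1
    omega
  obtain ⟨H1, hH1⟩ := pp_bdd W m hm
  obtain ⟨H2, hH2⟩ := pp_bdd W (p*m) (Nat.mul_pos hp0 hm)
  have hV := hasQ_Vp hp0 hH1
  rw [mul_zero] at hV
  have hU := hasQ_Up (N := 0) hp0 (by rw [mul_zero]; exact hH1)
  have hlT : Lvl (2 - k) (Tp (2 - k) p (gg a b ec m)) := lvl_Tp (lvl_gg hw ec m)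
  have hl1 := hlT.sub (lvl_gg hw ec (p*m))
  have hwneg : (2:ℤ) - k < 0 := by omega
  by_cases hd : p ∣ m
  · have hmp : 1 ≤ m / p := Nat.div_pos (Nat.le_of_dvd hm hd) hp0
    obtain ⟨H3, hH3⟩ := pp_bdd W (m/p) hmp
    have hl2 := hl1.sub ((lvl_gg hw ec (m/p)).const_mul ((p:ℂ)^(k-1)))
    have hQ := ((hV.add (hU.const_mul ((p:ℂ)^(k-1)))).sub hH2).sub (hH3.const_mul ((p:ℂ)^(k-1)))
    have hQ2 := hQ.congr (g := fun τ => Tp (2 - k) p (gg a b ec m) τ - gg a b ec (p*m) τ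
        - (p:ℂ)^(k-1) * gg a b ec (m/p) τ) (by
      intro σ
      rw [Vp_sub', Vp_qinv hp0, Up_sub, Up_qinv hp0, if_pos hd]
      unfold Tp
      rw [hz]
      ring)
    have h0 := congrFun (eq_zero_of_neg hl2 hQ2 hwneg) τ
    simp only [Pi.zero_apply] at h0
    rw [if_pos hd]
    linear_combination h0
  · have hQ := ((hV.add (hU.const_mul ((p:ℂ)^(k-1)))).sub hH2)
    have hQ2 := hQ.congr (g := fun τ => Tp (2 - k) p (gg a b ec m) τ - gg a b ec (p*m) τ) (by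
      intro σ
      rw [Vp_sub', Vp_qinv hp0, Up_sub, Up_qinv hp0, if_neg hd]
      unfold Tp
      rw [hz]
      ring)
    have h0 := congrFun (eq_zero_of_neg hl1 hQ2 hwneg) τ
    simp only [Pi.zero_apply] at h0
    rw [if_neg hd]
    linear_combination h0

lemma intQ_gg {k a b : ℕ} {hk : 3 ≤ k} {e : PowerSeries ℤ} (W : Wt k a b hk e) (m : ℕ) :
    IntQ (gg a b (fun n => PowerSeries.coeff n e) m) := by
  obtain ⟨G, hG, _⟩ := duality W m
  exact ⟨_, _, hG⟩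

/-- `g_{np^l} - V g_{np^{l-1}}` is divisible by `p^{(k-1) l}` -/
lemma divis {k a b : ℕ} {hk : 3 ≤ k} {e : PowerSeries ℤ} (W : Wt k a b hk e) {p : ℕ} [hp : Fact p.Prime]
    (n : ℕ) (hn : 1 ≤ n) (hpn : ¬ p ∣ n) (l : ℕ) :
    ∃ R : ℍ → ℂ, IntQ R ∧ ∀ τ, gg a b (fun n => PowerSeries.coeff n e) (p ^ (l+1) * n) τ
      - Vp p (gg a b (fun n => PowerSeries.coeff n e) (p ^ l * n)) τ = ((p:ℤ) ^ ((k-1)*(l+1)) : ℤ) * R τ := by
  have hp0 := hp.out.pos
  set ec : ℕ → ℤ := fun n => PowerSeries.coeff n e with hec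
  have hz : (p:ℂ) ^ (1 - (2 - (k:ℤ))) = (p:ℂ) ^ (k - 1) := by
    rw [← zpow_natCast]
    congr 1
    omega
  have hw : (4:ℤ) * a + 6 * b - 12 = 2 - k := by
    have := W.sum
    omega
  induction l with
  | zero =>
    refine ⟨Up p (gg a b ec n), (intQ_gg W n).Up hp0, fun τ => ?_⟩
    have h := hecke_rel W (p := p) n hn τ
    rw [if_neg hpn] at h
    unfold Tp at h
    rw [hz] at h
    simp only [zero_add, pow_one, pow_zero, one_mul, mul_one]
    push_cast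
    linear_combination -h
  | succ l ih =>
    obtain ⟨R, hR, hR2⟩ := ih
    refine ⟨Up p R, hR.Up hp0, fun τ => ?_⟩
    have hpos : 1 ≤ p ^ (l+1) * n := Nat.mul_pos (pow_pos hp0 _) hn
    have h := hecke_rel W (p := p) (p^(l+1) * n) hpos τ
    have hd : p ∣ p^(l+1) * n := Dvd.dvd.mul_right (dvd_pow_self p (by omega)) n
    have e1 : p^(l+1) * n / p = p^l * n := by
      rw [pow_succ', mul_assoc, Nat.mul_div_cancel_left _ hp0]
    have e2 : p * (p^(l+1) * n) = p^(l+1+1) * n := by ring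
    rw [if_pos hd, e1, e2] at h
    unfold Tp at h
    rw [hz] at h
    have h1 : Up p (Vp p (gg a b ec (p^l*n))) = gg a b ec (p^l*n) :=
      Up_Vp hp0 (fun n τ => (lvl_gg hw ec _).Tn n τ)
    have h2 : Up p (gg a b ec (p^(l+1)*n)) τ = gg a b ec (p^l*n) τ + ((p:ℤ) ^ ((k-1)*(l+1)) : ℤ) * Up p R τ := by
      have h3 : gg a b ec (p^(l+1)*n) = fun σ => Vp p (gg a b ec (p^l*n)) σ + (((p:ℤ) ^ ((k-1)*(l+1)) : ℤ) : ℂ) * R σ := by
        ext σ
        have := hR2 σ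
        rw [← this]
        ring
      rw [h3, Up_add, Up_const_mul, h1]
    rw [h2] at h
    have e3 : (p:ℂ) ^ ((k-1)*(l+1+1)) = (p:ℂ)^(k-1) * (p:ℂ)^((k-1)*(l+1)) := by
      rw [← pow_add]
      congr 1
      ring
    push_cast at h ⊢
    rw [e3]
    linear_combination -h

end Pool.Agent.H9.MF
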