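import Pool.Agent.H9.MF.HeckeRel

namespace Pool.Agent.H9.MF

open Complex Filter Topology ModularForm MatrixGroups Manifold
open UpperHalfPlane hiding I

/-- the components of the Hecke sum -/
noncomputable def comp (w : ℤ) (p : ℕ) (f : ℍ → ℂ) (τ : ℍ) : Option (ZMod p) → ℂ
  | none => Vp p f τ
  | some x => (p:ℂ) ^ (-w) * fb p f τ (x.val : ℤ)

lemma sum_comp {p : ℕ} [hp : Fact p.Prime] (w : ℤ) (f : ℍ → ℂ) (τ : ℍ) :
    ∑ i, comp w p f τ i = Tp w p f τ := by
  have hp' : (p:ℂ) ≠ 0 := by exact_mod_cast hp.out.ne_zero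
  have : NeZero p := ⟨hp.out.ne_zero⟩
  rw [Fintype.sum_option]
  unfold Tp
  rw [Up_eq]
  simp only [comp]
  rw [← Finset.mul_sum, ← mul_assoc, zpow_sub₀ hp', zpow_one, zpow_neg]
  field_simp

lemma comp_mul {p : ℕ} [hp : Fact p.Prime] (w1 w2 : ℤ) (f g : ℍ → ℂ) (τ : ℍ) (i : Option (ZMod p)) :
    comp (w1 + w2) p (fun τ => f τ * g τ) τ i = comp w1 p f τ i * comp w2 p g τ i := by
  have hp' : (p:ℂ) ≠ 0 := by exact_mod_cast hp.out.ne_zero
  cases i with
  | none => simp [comp, Vp]
  | some x =>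
    simp only [comp, fb]
    rw [neg_add, zpow_add₀ hp']
    ring

lemma comp_pow {p : ℕ} [hp : Fact p.Prime] (w : ℤ) (f : ℍ → ℂ) (τ : ℍ) (i : Option (ZMod p)) (n : ℕ) :
    comp (n * w) p (fun τ => f τ ^ n) τ i = comp w p f τ i ^ n := by
  induction n with
  | zero => cases i <;> simp [comp, Vp, fb]
  | succ n ih =>
    have := comp_mul (n * w) w (fun τ => f τ ^ n) f τ i
    rw [ih] at this
    have e : ((n + 1 : ℕ) : ℤ) * w = n * w + w := by push_cast; ring
    rw [e, pow_succ]
    simpa [pow_succ] using this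

/-- at a point fixed by an integral matrix of determinant `p`, one component is explicit -/
lemma cm_comp {p : ℕ} [hp : Fact p.Prime] (α : ℍ) (A B C D : ℤ) (hdet : A * D - B * C = p)
    (hfix : (A:ℂ) * α + B = α * ((C:ℂ) * α + D)) :
    ∃ i : Option (ZMod p), ∀ (w : ℤ) (f : ℍ → ℂ), Lvl w f →
      comp w p f α i = ((C:ℂ) * α + D) ^ (-w) * f α := by
  have hp0 := hp.out.pos
  have hp' : (p:ℂ) ≠ 0 := by exact_mod_cast hp.out.ne_zero
  have hCD : C ≠ 0 ∨ D ≠ 0 := by
    by_contra h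
    push Not at h
    rw [h.1, h.2] at hdet
    simp at hdet
    exact hp.out.ne_zero (by exact_mod_cast hdet.symm)
  have hπ : (C:ℂ) * α + D ≠ 0 := denom_ne hCD α
  have hα : ((A:ℂ) * α + B) / ((C:ℂ) * α + D) = α := by
    rw [hfix, mul_div_assoc, div_self hπ, mul_one]
  by_cases h : (p:ℤ) ∣ A ∧ (p:ℤ) ∣ C
  · obtain ⟨⟨A', hA⟩, ⟨C', hC⟩⟩ := h
    refine ⟨none, fun w f hf => ?_⟩
    have hd : A' * D - B * C' = 1 := by
      have h1 : (p:ℤ) * (A' * D - B * C') = p * 1 := by
        rw [hA, hC] at hdet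
        linear_combination hdet
      have hp2 : (p:ℤ) ≠ 0 := by exact_mod_cast hp.out.ne_zero
      exact mul_left_cancel₀ hp2 h1
    have h2 := hf.apply A' B C' D hd (ofComplex ((p:ℂ) * α))
    rw [coe_ofC (im_p hp0 α)] at h2
    have e1 : (A':ℂ) * ((p:ℂ) * α) + B = A * α + B := by
      rw [hA]; push_cast; ring
    have e2 : (C':ℂ) * ((p:ℂ) * α) + D = C * α + D := by
      rw [hC]; push_cast; ring
    rw [e1, e2, hα, ofC_coe] at h2
    simp only [comp, Vp]
    rw [h2, ← mul_assoc, ← zpow_add₀ hπ]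
    simp
  · -- some `b` with `B ≡ A b`, `D ≡ C b`
    have hb : ∃ b : ZMod p, (B : ZMod p) = A * b ∧ (D : ZMod p) = C * b := by
      have hz : (A : ZMod p) * D = B * C := by
        have : ((A * D - B * C : ℤ) : ZMod p) = ((p:ℤ) : ZMod p) := by rw [hdet]
        push_cast at this
        rw [CharP.cast_eq_zero] at this
        linear_combination this
      by_cases hA : (A : ZMod p) = 0
      · have hC : (C : ZMod p) ≠ 0 := by
          intro hC
          exact h ⟨(ZMod.intCast_zmod_eq_zero_iff_dvd _ _).mp hA, (ZMod.intCast_zmod_eq_zero_iff_dvd _ _).mp hC⟩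
        refine ⟨D / C, ?_, ?_⟩
        · have h3 : (B : ZMod p) = 0 := by
            rw [hA, zero_mul] at hz
            rcases mul_eq_zero.mp hz.symm with h4 | h4
            · exact h4
            · exact absurd h4 hC
          rw [h3, hA]
          simp
        · field_simp
      · refine ⟨B / A, ?_, ?_⟩
        · field_simp
        · field_simp
          linear_combination hz
    obtain ⟨x, hx1, hx2⟩ := hb
    set b : ℤ := (x.val : ℤ) with hbdef
    have : NeZero p := ⟨hp.out.ne_zero⟩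
    have hbx : ((b:ℤ) : ZMod p) = x := by
      rw [hbdef]
      push_cast
      rw [ZMod.natCast_zmod_val]
    have hB : (p:ℤ) ∣ B - A * b := by
      rw [← ZMod.intCast_zmod_eq_zero_iff_dvd]
      push_cast
      rw [hbx, hx1]
      ring
    have hD : (p:ℤ) ∣ D - C * b := by
      rw [← ZMod.intCast_zmod_eq_zero_iff_dvd]
      push_cast
      rw [hbx, hx2]
      ring
    obtain ⟨B', hB'⟩ := hB
    obtain ⟨D', hD'⟩ := hD
    refine ⟨some x, fun w f hf => ?_⟩
    have hd : A * D' - B' * C = 1 := by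
      have h1 : (p:ℤ) * (A * D' - B' * C) = p * 1 := by
        linear_combination hdet - A * hD' + C * hB'
      have hp2 : (p:ℤ) ≠ 0 := by exact_mod_cast hp.out.ne_zero
      exact mul_left_cancel₀ hp2 h1
    have h2 := hf.apply A B' C D' hd (ofComplex (((α:ℂ) + b) / p))
    rw [coe_ofC (im_b hp0 (b:ℂ) (by simp) α)] at h2
    have hB2 : (B:ℂ) - A * b = p * B' := by exact_mod_cast hB'
    have hD2 : (D:ℂ) - C * b = p * D' := by exact_mod_cast hD'
    have e1 : (A:ℂ) * (((α:ℂ) + b) / p) + B' = (A * α + B) / p := by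
      field_simp
      linear_combination -hB2
    have e2 : (C:ℂ) * (((α:ℂ) + b) / p) + D' = (C * α + D) / p := by
      field_simp
      linear_combination -hD2
    rw [e1, e2, div_div_div_cancel_right₀ hp', hα, ofC_coe, div_zpow] at h2
    simp only [comp, fb]
    rw [← hbdef]
    rw [h2, zpow_neg, zpow_neg]
    have h5 : ((C:ℂ) * α + D) ^ w ≠ 0 := zpow_ne_zero _ hπ
    have h6 : (p:ℂ) ^ w ≠ 0 := zpow_ne_zero _ hp'
    generalize ((C:ℂ) * α + D) ^ w = Q at h5 ⊢
    field_simp

end Pool.Agent.H9.MF
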