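import Pool.Agent.H9.MF.Point
import Pool.Agent.H9.MF.Alg

namespace Pool.Agent.H9.MF

open Complex Filter Topology ModularForm MatrixGroups Manifold
open UpperHalfPlane hiding I

lemma int_value {α : ℍ} {J : ℤ} (hJ : jj α = J) {f : ℍ → ℂ} (hl : Lvl 0 f) (hf : IntQ f) :
    ∃ z : ℤ, f α = z := by
  obtain ⟨P, hP⟩ := principle' hl hf
  refine ⟨P.eval J, ?_⟩
  rw [hP, hJ]
  have := Polynomial.aeval_algebraMap_apply ℂ J P
  simpa using this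

lemma int_value_div {α : ℍ} {J : ℤ} (hJ : jj α = J) {f g : ℍ → ℂ} (hl : Lvl 0 f) (M : ℤ) (hM : M ≠ 0)
    (hg : IntQ g) (h : ∀ τ, f τ = M * g τ) : ∃ z : ℤ, f α = M * z := by
  have hM' : (M:ℂ) ≠ 0 := by exact_mod_cast hM
  have hlg : Lvl 0 g := by
    have h1 := hl.const_mul ((M:ℂ)⁻¹)
    have h2 : (fun τ => (M:ℂ)⁻¹ * f τ) = g := by
      ext τ
      rw [h τ]
      field_simp
    rw [h2] at h1
    exact h1
  obtain ⟨z, hz⟩ := int_value hJ hlg hg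
  exact ⟨z, by rw [h, hz]⟩

/-- `1/Delta` -/
noncomputable def dI (τ : ℍ) : ℂ := (discriminant τ)⁻¹

lemma intQ_dI : IntQ dI := ⟨_, _, hasQ_invdisc⟩

lemma intQ_disc : IntQ discriminant := ⟨_, _, hasQ_disc⟩

lemma intQ_f1 (a b : ℕ) : IntQ (f1 a b) := ⟨_, _, hasQ_f1 a b⟩

lemma lvl_dI : Lvl (-12) dI := by
  have h1 := (Lvl.const 1).div lvl_disc
  have h2 := h1.cast (b := -12) (by norm_num)
  have h3 : (fun τ => (1:ℂ) / discriminant τ) = dI := by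
    ext τ
    unfold dI
    rw [one_div]
  rw [h3] at h2
  exact h2

lemma Tp_eq {w : ℤ} {p u : ℕ} (hu : 1 - w = u) (f : ℍ → ℂ) (τ : ℍ) :
    Tp w p f τ = Vp p f τ + (((p:ℤ) ^ u : ℤ) : ℂ) * Up p f τ := by
  unfold Tp
  rw [hu, zpow_natCast]
  push_cast
  rfl

/-- `Delta^s T_p(Delta^{-s})` -/
noncomputable def ph (p s : ℕ) (τ : ℍ) : ℂ :=
  discriminant τ ^ s * Tp ((s:ℤ) * (-12)) p (fun τ => dI τ ^ s) τ

lemma lvl_ph {p : ℕ} [hp : Fact p.Prime] (s : ℕ) : Lvl 0 (ph p s) :=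
  ((lvl_disc.pow s).mul (lvl_Tp (lvl_dI.pow s))).cast (by ring)

lemma ph_eq (p s : ℕ) (τ : ℍ) : ph p s τ = (discriminant τ * Vp p dI τ) ^ s
    + (((p:ℤ) ^ (12 * s + 1) : ℤ) : ℂ) * (discriminant τ ^ s * Up p (fun τ => dI τ ^ s) τ) := by
  unfold ph
  rw [Tp_eq (u := 12 * s + 1) (by push_cast; ring)]
  have : Vp p (fun τ => dI τ ^ s) τ = (Vp p dI τ) ^ s := rfl
  rw [this, mul_pow]
  ring

lemma intQ_ph {p : ℕ} (hp : 0 < p) (s : ℕ) : IntQ (ph p s) := by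
  refine IntQ.congr ?_ (ph_eq p s)
  exact ((intQ_disc.mul (intQ_dI.Vp hp)).pow s).add (((intQ_disc.pow s).mul ((intQ_dI.pow s).Up hp)).const_mul _)

lemma pow_cong {x y : ℍ → ℂ} (hx : IntQ x) (hy : IntQ y) (q : ℤ) (s : ℕ) :
    ∃ R, IntQ R ∧ ∀ τ, (x τ + q * y τ) ^ s = x τ ^ s + q * R τ := by
  induction s with
  | zero =>
    refine ⟨fun _ => ((0:ℤ):ℂ), IntQ.const 0, fun τ => ?_⟩
    simp
  | succ s ih =>
    obtain ⟨R, hR, hR2⟩ := ih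
    refine ⟨fun τ => (R τ * x τ + x τ ^ s * y τ) + (q:ℂ) * (R τ * y τ), ?_, fun τ => ?_⟩
    · exact ((hR.mul hx).add ((hx.pow s).mul hy)).add ((hR.mul hy).const_mul q)
    · rw [pow_succ, hR2, pow_succ]
      ring

lemma ph_cong {p : ℕ} (hp : 0 < p) (s : ℕ) (hs : 1 ≤ s) :
    ∃ R, IntQ R ∧ ∀ τ, ph p s τ - ph p 1 τ ^ s = (((p:ℤ) ^ 2 : ℤ) : ℂ) * R τ := by
  have hx : IntQ (fun τ => discriminant τ * Vp p dI τ) := intQ_disc.mul (intQ_dI.Vp hp)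
  have hy : IntQ (fun τ => (((p:ℤ) ^ 11 : ℤ) : ℂ) * (discriminant τ * Up p dI τ)) :=
    (intQ_disc.mul (intQ_dI.Up hp)).const_mul _
  obtain ⟨R, hR, hR2⟩ := pow_cong hx hy ((p:ℤ)^2) s
  refine ⟨fun τ => (((p:ℤ) ^ (12 * s - 1) : ℤ) : ℂ) * (discriminant τ ^ s * Up p (fun τ => dI τ ^ s) τ) - R τ, ?_, fun τ => ?_⟩
  · exact (((intQ_disc.pow s).mul ((intQ_dI.pow s).Up hp)).const_mul _).sub hR
  · have h1 : ph p 1 τ = discriminant τ * Vp p dI τ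
        + (((p:ℤ) ^ 2 : ℤ) : ℂ) * ((((p:ℤ) ^ 11 : ℤ) : ℂ) * (discriminant τ * Up p dI τ)) := by
      rw [ph_eq]
      simp only [pow_one]
      push_cast
      ring
    rw [h1, hR2, ph_eq]
    obtain ⟨t, rfl⟩ : ∃ t, s = t + 1 := ⟨s - 1, by omega⟩
    have e1 : 12 * (t+1) - 1 = 12 * t + 11 := by omega
    rw [e1]
    push_cast
    ring

/-- the numbers `v_i` -/
noncomputable def vv (p : ℕ) (α : ℍ) (i : Option (ZMod p)) : ℂ := discriminant α * comp (-12) p dI α i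

lemma sum_vv {p : ℕ} [hp : Fact p.Prime] (α : ℍ) (s : ℕ) : ∑ i, vv p α i ^ s = ph p s α := by
  unfold ph
  rw [← sum_comp, Finset.mul_sum]
  apply Finset.sum_congr rfl
  intro i _
  unfold vv
  rw [comp_pow, mul_pow]

/-- the power sums are integers congruent to powers of the first one -/
lemma power_sums {p : ℕ} [hp : Fact p.Prime] {α : ℍ} {J : ℤ} (hJ : jj α = J) :
    ∃ Pz : ℕ → ℤ, (∀ s : ℕ, 1 ≤ s → ∑ i, vv p α i ^ s = Pz s) ∧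
      (∀ s : ℕ, 1 ≤ s → ((p:ℤ) ^ 2) ∣ Pz s - (Pz 1) ^ s) := by
  have hp0 := hp.out.pos
  have h1 : ∀ s, ∃ z : ℤ, ph p s α = z := fun s => int_value hJ (lvl_ph s) (intQ_ph hp0 s)
  choose Pz hPz using h1
  refine ⟨Pz, fun s _ => by rw [sum_vv, hPz], fun s hs => ?_⟩
  obtain ⟨R, hR, hR2⟩ := ph_cong hp0 s hs
  have hl : Lvl 0 (fun τ => ph p s τ - ph p 1 τ ^ s) :=
    (lvl_ph s).sub (((lvl_ph (p := p) 1).pow s).cast (by ring))
  obtain ⟨z, hz⟩ := int_value_div hJ hl ((p:ℤ)^2) (pow_ne_zero _ (by exact_mod_cast hp.out.ne_zero)) hR hR2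
  refine ⟨z, ?_⟩
  rw [hPz, hPz] at hz
  have : ((Pz s - Pz 1 ^ s : ℤ) : ℂ) = (((p:ℤ)^2 * z : ℤ) : ℂ) := by
    push_cast
    push_cast at hz
    exact hz
  exact_mod_cast this

/-- the normalising factor -/
noncomputable def NN (k a b : ℕ) (τ : ℍ) : ℂ := f1 a b τ ^ 11 * discriminant τ ^ (k - 2)

/-- the numbers `r_i` -/
noncomputable def rr (k a b p : ℕ) (A B : ℍ → ℂ) (α : ℍ) (i : Option (ZMod p)) : ℂ :=
  NN k a b α * (A α - comp (2 - k) p B α i)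

noncomputable def HH (k a b p : ℕ) (A B : ℍ → ℂ) (s : ℕ) (τ : ℍ) : ℂ :=
  NN k a b τ * discriminant τ ^ s * (A τ * Tp ((s:ℤ) * (-12)) p (fun τ => dI τ ^ s) τ
    - Tp ((s:ℤ) * (-12) + (2 - k)) p (fun τ => dI τ ^ s * B τ) τ)

lemma sum_rr {k a b p : ℕ} [hp : Fact p.Prime] (A B : ℍ → ℂ) (α : ℍ) (s : ℕ) :
    ∑ i, rr k a b p A B α i * vv p α i ^ s = HH k a b p A B s α := by
  unfold HH
  rw [← sum_comp, ← sum_comp, Finset.mul_sum, ← Finset.sum_sub_distrib, Finset.mul_sum]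
  apply Finset.sum_congr rfl
  intro i _
  unfold rr vv
  rw [comp_mul ((s:ℤ) * (-12)) (2 - k) (fun τ => dI τ ^ s) B α i, comp_pow, mul_pow]
  ring

lemma lvl_HH {k a b p : ℕ} [hp : Fact p.Prime] (hk : 2 ≤ k) (hw : (4:ℤ) * a + 6 * b - 12 = 2 - k)
    {A B : ℍ → ℂ} (hA : Lvl (2 - k) A) (hB : Lvl (2 - k) B) (s : ℕ) : Lvl 0 (HH k a b p A B s) := by
  have h1 : Lvl (11 * (2 - (k:ℤ)) + ((k - 2 : ℕ) : ℤ) * 12) (NN k a b) :=
    ((lvl_f1 a b hw).pow 11).mul (lvl_disc.pow (k-2))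
  have h2 := h1.mul (lvl_disc.pow s)
  have h3 := lvl_Tp (p := p) (lvl_dI.pow s)
  have h4 := lvl_Tp (p := p) ((lvl_dI.pow s).mul hB)
  have h5 := (hA.mul h3).cast (b := (s:ℤ) * (-12) + (2 - k)) (by ring)
  have h6 := h5.sub h4
  have h7 := h2.mul h6
  refine h7.cast ?_
  have : ((k - 2 : ℕ) : ℤ) = k - 2 := by omega
  rw [this]
  ring

lemma HH_div {k a b p : ℕ} (hp : 0 < p) (hk : 2 ≤ k) {A B R : ℍ → ℂ} (hA : IntQ A) (hB : IntQ B) (hR : IntQ R)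
    (M : ℕ) (h : ∀ τ, A τ - Vp p B τ = (((p:ℤ) ^ M : ℤ) : ℂ) * R τ) (s : ℕ) (hs : M ≤ 12 * s + 1) :
    ∃ R', IntQ R' ∧ ∀ τ, HH k a b p A B s τ = (((p:ℤ) ^ M : ℤ) : ℂ) * R' τ := by
  have hN : IntQ (NN k a b) := ((intQ_f1 a b).pow 11).mul (intQ_disc.pow (k-2))
  refine ⟨fun τ => NN k a b τ * discriminant τ ^ s * ((R τ * Vp p (fun τ => dI τ ^ s) τ
      + (((p:ℤ) ^ (12 * s + 1 - M) : ℤ) : ℂ) * (A τ * Up p (fun τ => dI τ ^ s) τ))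
      - (((p:ℤ) ^ (12 * s + 1 - M + (k - 2)) : ℤ) : ℂ) * Up p (fun τ => dI τ ^ s * B τ) τ), ?_, fun τ => ?_⟩
  · refine (hN.mul (intQ_disc.pow s)).mul ?_
    refine (((hR.mul ((intQ_dI.pow s).Vp hp))).add ((hA.mul ((intQ_dI.pow s).Up hp)).const_mul _)).sub ?_
    exact (((intQ_dI.pow s).mul hB).Up hp).const_mul _
  · unfold HH
    rw [Tp_eq (u := 12 * s + 1) (by push_cast; ring), Tp_eq (u := 12 * s + 1 + (k - 2)) (by push_cast; omega)]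
    have h1 : Vp p (fun τ => dI τ ^ s * B τ) τ = Vp p (fun τ => dI τ ^ s) τ * Vp p B τ := rfl
    rw [h1]
    have e1 : (((p:ℤ) ^ (12 * s + 1) : ℤ) : ℂ) = (((p:ℤ) ^ M : ℤ) : ℂ) * (((p:ℤ) ^ (12 * s + 1 - M) : ℤ) : ℂ) := by
      have : (p:ℤ) ^ (12 * s + 1) = (p:ℤ)^M * (p:ℤ) ^ (12 * s + 1 - M) := by
        rw [← pow_add]
        congr 1
        omega
      rw [this]
      push_cast
      ring
    have e2 : (((p:ℤ) ^ (12 * s + 1 + (k - 2)) : ℤ) : ℂ)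
        = (((p:ℤ) ^ M : ℤ) : ℂ) * (((p:ℤ) ^ (12 * s + 1 - M + (k - 2)) : ℤ) : ℂ) := by
      have : (p:ℤ) ^ (12 * s + 1 + (k - 2)) = (p:ℤ)^M * (p:ℤ) ^ (12 * s + 1 - M + (k - 2)) := by
        rw [← pow_add]
        congr 1
        omega
      rw [this]
      push_cast
      ring
    have h2 := h τ
    rw [e1, e2]
    linear_combination (NN k a b τ * discriminant τ ^ s * Vp p (fun τ => dI τ ^ s) τ) * h2

end Pool.Agent.H9.MF
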